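import Pool.Agent.Lib.P4a177u.Defs

/-!
# A symbol on the rational numbers with values in a torsion free group is zero

`K_2(ℚ)` is a torsion group. By induction on `q`, the symbols `{a, q}`, `a < q`, vanish: for a prime `q`
the map `a ↦ {a, q}` is a homomorphism on `(ℤ / q)ˣ`.
-/

set_option autoImplicit false

namespace P4a177u

namespace RatZAux

/-- The unit `n` of `ℚ` (`1` if `n = 0`). -/
noncomputable def nu (n : ℕ) : ℚˣ := if h : (n : ℚ) ≠ 0 then Units.mk0 (n : ℚ) h else 1

theorem nu_val {n : ℕ} (h : n ≠ 0) : (nu n : ℚ) = n := by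
  unfold nu
  rw [dif_pos (Nat.cast_ne_zero.2 h), Units.val_mk0]

theorem nu_mul {a b : ℕ} (ha : a ≠ 0) (hb : b ≠ 0) : nu (a * b) = nu a * nu b := by
  apply Units.ext
  rw [nu_val (mul_ne_zero ha hb), Units.val_mul, nu_val ha, nu_val hb, Nat.cast_mul]

theorem nu_one : nu 1 = 1 := by
  apply Units.ext
  rw [nu_val one_ne_zero, Nat.cast_one, Units.val_one]

variable {G : Type*} [AddCommGroup G] (S : Sy ℚ G)

/-- the relation modulo `q` -/
theorem mod_rel {q a a' a'' m : ℕ} (hq : q ≠ 0) (ha : a ≠ 0) (ha' : a' ≠ 0) (ha'' : a'' ≠ 0)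
    (h : a * a' = a'' + m * q)
    (h1 : m ≠ 0 → S.B (nu a) (nu m) = 0) (h2 : m ≠ 0 → S.B (nu a') (nu m) = 0)
    (h3 : m ≠ 0 → S.B (nu a'') (nu m) = 0) (h4 : S.B (nu a) (nu a'') = 0)
    (h5 : S.B (nu a') (nu a'') = 0) :
    S.B (nu a'') (nu q) = S.B (nu a) (nu q) + S.B (nu a') (nu q) := by
  by_cases hm : m = 0
  · rw [hm, zero_mul, add_zero] at h
    rw [← h, nu_mul ha ha', S.mul_left]
  · have hst := S.st (nu a * nu a' / nu a'') (-(nu m * nu q / nu a'')) (by
      rw [Units.val_neg, Units.val_div_eq_div_val, Units.val_div_eq_div_val, Units.val_mul,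
        Units.val_mul, nu_val ha, nu_val ha', nu_val ha'', nu_val hm, nu_val hq]
      have h0 : (a'' : ℚ) ≠ 0 := Nat.cast_ne_zero.2 ha''
      have h' : (a : ℚ) * a' = a'' + m * q := by exact_mod_cast h
      rw [h']
      field_simp
      ring)
    rw [S.neg_right, S.div_right, S.mul_right] at hst
    simp only [S.div_left, S.mul_left, S.self] at hst
    rw [h1 hm, h2 hm, h3 hm, h4, h5] at hst
    have e : S.B (nu a) (nu q) + S.B (nu a') (nu q) - S.B (nu a'') (nu q) = 0 := by
      simpa using hst
    exact (sub_eq_zero.1 e).symm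

theorem main (n : ℕ) : ∀ a b : ℕ, a ≠ 0 → b ≠ 0 → a ≤ n → b ≤ n → S.B (nu a) (nu b) = 0 := by
  induction n with
  | zero =>
    intro a b ha _ han _
    omega
  | succ n ih =>
    have key : ∀ a : ℕ, a ≠ 0 → a ≤ n → S.B (nu a) (nu (n + 1)) = 0 := by
      intro a ha han
      by_cases hp : (n + 1).Prime
      · have : Fact (n + 1).Prime := ⟨hp⟩
        have hval : ∀ z : (ZMod (n + 1))ˣ, (z : ZMod (n + 1)).val ≠ 0 ∧
            (z : ZMod (n + 1)).val ≤ n := by
          intro z
          refine ⟨fun h => z.ne_zero ((ZMod.val_eq_zero _).1 h), ?_⟩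
          exact Nat.lt_succ_iff.1 (ZMod.val_lt _)
        let ψ : Additive (ZMod (n + 1))ˣ →+ G :=
          AddMonoidHom.mk' (fun z => S.B (nu (z.toMul : ZMod (n + 1)).val) (nu (n + 1)))
            (fun y z => by
              obtain ⟨hy, hy'⟩ := hval y.toMul
              obtain ⟨hz, hz'⟩ := hval z.toMul
              obtain ⟨hw, hw'⟩ := hval (y + z).toMul
              have hmul : ((y + z).toMul : ZMod (n + 1)).val =
                  ((y.toMul : ZMod (n + 1)).val * (z.toMul : ZMod (n + 1)).val) % (n + 1) := by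
                rw [toMul_add, Units.val_mul, ZMod.val_mul]
              have hdiv : (y.toMul : ZMod (n + 1)).val * (z.toMul : ZMod (n + 1)).val =
                  ((y + z).toMul : ZMod (n + 1)).val +
                  ((y.toMul : ZMod (n + 1)).val * (z.toMul : ZMod (n + 1)).val) / (n + 1) *
                    (n + 1) := by
                rw [hmul]
                exact (Nat.mod_add_div' _ _).symm
              have hm : ((y.toMul : ZMod (n + 1)).val * (z.toMul : ZMod (n + 1)).val) / (n + 1) ≤
                  n := by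
                apply Nat.lt_succ_iff.1
                apply Nat.div_lt_of_lt_mul
                exact Nat.mul_lt_mul'' (Nat.lt_succ_iff.2 hy') (Nat.lt_succ_iff.2 hz')
              exact mod_rel S (Nat.succ_ne_zero n) hy hz hw hdiv
                (fun h => ih _ _ hy h hy' hm) (fun h => ih _ _ hz h hz' hm)
                (fun h => ih _ _ hw h hw' hm) (ih _ _ hy hw hy' hw') (ih _ _ hz hw hz' hw'))
        have hco : a.Coprime (n + 1) :=
          (Nat.Coprime.symm ((Nat.Prime.coprime_iff_not_dvd hp).2 fun hd =>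
            absurd (Nat.le_of_dvd (Nat.pos_of_ne_zero ha) hd) (by omega)))
        set z := ZMod.unitOfCoprime a hco with hz
        have hza : (z : ZMod (n + 1)).val = a := by
          rw [hz, ZMod.coe_unitOfCoprime]
          exact ZMod.val_natCast_of_lt (by omega)
        have h1 : ψ (Additive.ofMul z) = S.B (nu a) (nu (n + 1)) := by
          show S.B (nu (z : ZMod (n + 1)).val) (nu (n + 1)) = _
          rw [hza]
        rw [← h1]
        apply S.tf (Fintype.card (Additive (ZMod (n + 1))ˣ)) _ Fintype.card_pos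
        rw [← map_nsmul, card_nsmul_eq_zero, map_zero]
      · by_cases hn : n = 0
        · omega
        · obtain ⟨c, d, hc, hd, hcd⟩ : ∃ c d : ℕ, c ≤ n ∧ d ≤ n ∧ c * d = n + 1 := by
            obtain ⟨c, hc, h1, h2⟩ := Nat.exists_dvd_of_not_prime2 (by omega) hp
            obtain ⟨d, hd⟩ := hc
            refine ⟨c, d, by omega, ?_, hd.symm⟩
            have : 2 * d ≤ c * d := Nat.mul_le_mul_right _ h1
            have hd0 : d ≠ 0 := by
              rintro rfl
              omega
            omega
          have hc0 : c ≠ 0 := by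
            rintro rfl
            omega
          have hd0 : d ≠ 0 := by
            rintro rfl
            omega
          rw [← hcd, nu_mul hc0 hd0, S.mul_right, ih a c ha hc0 han hc, ih a d ha hd0 han hd,
            add_zero]
    intro a b ha hb han hbn
    rcases Nat.lt_or_ge n a with h | h
    · have ea : a = n + 1 := le_antisymm han h
      rcases Nat.lt_or_ge n b with h' | h'
      · have eb : b = n + 1 := le_antisymm hbn h'
        rw [ea, eb, S.self]
      · rw [ea, S.anti, key b hb h', neg_zero]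
    · rcases Nat.lt_or_ge n b with h' | h'
      · have eb : b = n + 1 := le_antisymm hbn h'
        rw [eb, key a ha h]
      · exact ih a b ha hb h h'

theorem decomp (c : ℚˣ) : ∃ a b : ℕ, a ≠ 0 ∧ b ≠ 0 ∧ (c = nu a / nu b ∨ c = -(nu a / nu b)) := by
  have hc : (c : ℚ) ≠ 0 := c.ne_zero
  refine ⟨(c : ℚ).num.natAbs, (c : ℚ).den, Int.natAbs_ne_zero.2 (Rat.num_ne_zero.2 hc),
    (c : ℚ).den_nz, ?_⟩
  have h1 : (c : ℚ) = (c : ℚ).num / (c : ℚ).den := (Rat.num_div_den _).symm
  have hn : (c : ℚ).num.natAbs ≠ 0 := Int.natAbs_ne_zero.2 (Rat.num_ne_zero.2 hc)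
  rcases Int.natAbs_eq (c : ℚ).num with h | h
  · left
    apply Units.ext
    rw [Units.val_div_eq_div_val, nu_val hn, nu_val (c : ℚ).den_nz]
    conv_lhs => rw [h1, h]
    rw [Int.cast_natCast]
  · right
    apply Units.ext
    rw [Units.val_neg, Units.val_div_eq_div_val, nu_val hn, nu_val (c : ℚ).den_nz]
    conv_lhs => rw [h1, h]
    rw [Int.cast_neg, Int.cast_natCast, neg_div]

end RatZAux

open RatZAux in
theorem rat_zero {G : Type*} [AddCommGroup G] (S : Sy ℚ G) (c d : ℚˣ) : S.B c d = 0 := by
  obtain ⟨a, b, ha, hb, hc⟩ := decomp c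
  obtain ⟨a', b', ha', hb', hd⟩ := decomp d
  have key : S.B (nu a / nu b) (nu a' / nu b') = 0 := by
    have h : ∀ x y : ℕ, x ≠ 0 → y ≠ 0 → S.B (nu x) (nu y) = 0 := fun x y hx hy =>
      main S (max x y) x y hx hy (le_max_left _ _) (le_max_right _ _)
    rw [S.div_left, S.div_right, S.div_right, h a a' ha ha', h a b' ha hb', h b a' hb ha',
      h b b' hb hb']
    simp
  have h1 : ∀ y, S.B c y = S.B (nu a / nu b) y := by
    intro y
    rcases hc with rfl | rfl
    · rfl
    · rw [S.neg_left]
  have h2 : ∀ y, S.B y d = S.B y (nu a' / nu b') := by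
    intro y
    rcases hd with rfl | rfl
    · rfl
    · rw [S.neg_right]
  rw [h1, h2, key]

end P4a177u
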