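import Pool.Agent.Lib.P4a177u.Quo

/-!
# Integral combinations up to negligible elements
-/

set_option autoImplicit false

namespace P4a177u

open P4a177h

/-- `M * h` minus the integral combination of the `ξ i` with the coefficients `c i`. -/
def residue {G ι : Type} [AddCommGroup G] [Fintype ι] (ξ : ι → G) (M : ℕ) (h : G) (c : ι → ℤ) : G :=
  M • h - ∑ i, c i • ξ i

/-- The element of the Milnor K-group of the ring `R` becomes torsion in the Milnor K-group of the
fraction field of `R`. -/
def GenericallyTorsion {n : ℕ} {R : Type} [CommRing R] (y : MilnorK n R) : Prop :=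
  ∀ (K : Type) [Field K] [Algebra R K] [IsFractionRing R K],
    IsOfFinAddOrder (map (algebraMap R K) y)

/-- An element of the Milnor K-group of a ring is negligible if it becomes torsion in the Milnor
K-group of the fraction field and if its regulators on all the tori vanish. -/
def Negligible {m : ℕ} {R : Type} [CommRing R] (y : MilnorK (m + 1) R) : Prop :=
  GenericallyTorsion y ∧ ∀ γ : Torus m R, reg γ y = 0

/-- The multiple `M * h` is an integral combination of the elements `ξ i`, up to a negligible
element. -/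
def SpannedBy {m : ℕ} {R ι : Type} [CommRing R] [Fintype ι] (ξ : ι → MilnorK (m + 1) R) (M : ℕ)
    (h : MilnorK (m + 1) R) : Prop :=
  ∃ c : ι → ℤ, Negligible (residue ξ M h c)

theorem isOfFinAddOrder_of {G : Type} [AddCommGroup G] {x : G} (h : ∃ k : ℕ, 0 < k ∧ k • x = 0) :
    IsOfFinAddOrder x := by
  obtain ⟨k, hk, h⟩ := h
  rw [isOfFinAddOrder_iff_nsmul_eq_zero]
  exact ⟨k, hk, h⟩

theorem negligible_of_tor {R : Type} [CommRing R] {y : MilnorK (1 + 1) R} (hy : y ∈ Tor R) :
    Negligible y :=
  ⟨fun K _ _ _ => isOfFinAddOrder_of (map_tor (algebraMap R K) hy), fun γ => reg_tor γ hy⟩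

theorem spannedBy_of_tor {R ι : Type} [CommRing R] [Fintype ι] {ξ : ι → MilnorK (1 + 1) R} {M : ℕ}
    {h : MilnorK (1 + 1) R} (hc : ∃ c : ι → ℤ, M • h - ∑ i, c i • ξ i ∈ Tor R) :
    SpannedBy ξ M h := by
  obtain ⟨c, hc⟩ := hc
  exact ⟨c, negligible_of_tor hc⟩

end P4a177u
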