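import Pool.Agent.Lib.P4a177u.Defs

/-!
# MODULE P4a177u.AlgB: the values of a symbol on the units of the curve

PROOF. The calculus of a symbol `S : Sy R G` (`neg_left`, `neg_right`, `self`, `anti`, `zpow_left`, `prod_right`, ...) is in
`Defs.lean`; `e := uF b N = uT1 b N / uT b N`, `l i := uL b N i`, constants `cst b N c`.
`good_zero`, `good_add`, `good_neg`: add the `n`, multiply the constants (`cst` is a homomorphism, `S.mul_left`,
`S.inv_left`), `good_zsmul` follows (or `zpow`). Relations: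
(R1) `S.B (l i) (l j) = S.B (cst ..) (l i) + S.B (cst ..) (l j)` for `i ≠ j`: with the constant
`d = b j - b i ≠ 0` one has `l i - l j = d` (as elements of the ring), so
`l i / d + (-(l j) / d) = 1` and `S.st` gives `S.B (l i / cst d) (-(l j / cst d)) = 0`; expand
(`S.neg_right`, `div_left`, `div_right`, `S.anti`, `hQ`).
(R2) `∑ i, S.B e (l i) = - S.B e (cst N)`: from `uT * uT1 * cst N * ∏ l i = 1` (`eqn_cX`) and `e = uT1 / uT`,
`1 - e = 1 / t`, i.e. `(e : R) + (uT⁻¹ : R) = 1`, so `S.B e uT = 0` (`S.st`, `S.inv_right`), `S.B e uT1 =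
S.B e (e * uT) = 0` (`S.self`), so `S.B e (cst N * ∏ l i) = 0`.
`good_pair`: `4 • S.B u v = S.B (u ^ 2) (v ^ 2)`; expand by bilinearity with `hu`, `hv`: `S.B (cst ..) (cst ..) = 0`
(`hQ`), `S.B e e = 0`, `S.B (l i) (l i) = 0`, (R1), `S.anti`: the result is
`∑ i, n i • S.B e (l i) + S.B (cst ..) e + ∑ i, S.B (cst ..) (l i)` with integers `n i`. Multiply by `g + 1` and
subtract `σ = ∑ n i` times (R2): `(g + 1) ∑ n i • S.B e (l i) = ∑ i, ((g + 1) n i - σ) • S.B e (l i) + S.B (cst N ^ σ) e`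
(up to the sign of the exponent; `S.anti`), and as `∑ ((g + 1) n i - σ) = 0` the sum is
`∑ p, ((g + 1) n (p + 1) - σ) • (S.B e (l (p + 1)) - S.B e (l 0))`
(`Fin.sum_univ_succ`) `= ∑ p, .. • S.B (-e) (-(l (p + 1) / l 0))`. It is convenient to prove first
`Good b N S (S.B (cst b N c) u)` for `u = e`, `l i` (`Function.update 1 i c`) and
`Good b N S ((g + 1) • S.B e (l i))`, and then to use `good_add`, sums and `zsmul`.
-/

set_option autoImplicit false

namespace P4a177u

open P4a177h P4a177d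

variable {g : ℕ} {b : Fin (g + 1) → ℤ} {N : ℤ} {G : Type*} [AddCommGroup G]
  {S : Sy (CoordRing b N) G}

theorem good_zero : Good b N S 0 := by
  refine ⟨0, 1, 1, ?_⟩
  simp [S.one_left]

theorem good_add {x y : G} (hx : Good b N S x) (hy : Good b N S y) : Good b N S (x + y) := by
  obtain ⟨n, c, d, rfl⟩ := hx
  obtain ⟨n', c', d', rfl⟩ := hy
  refine ⟨n + n', c * c', d * d', ?_⟩
  simp only [Pi.add_apply, Pi.mul_apply, add_smul, map_mul, S.mul_left, Finset.sum_add_distrib]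
  abel

theorem good_neg {x : G} (hx : Good b N S x) : Good b N S (-x) := by
  obtain ⟨n, c, d, rfl⟩ := hx
  refine ⟨-n, c⁻¹, d⁻¹, ?_⟩
  simp only [Pi.neg_apply, Pi.inv_apply, neg_smul, map_inv, S.inv_left, Finset.sum_neg_distrib]
  abel

namespace AlgBAux

/-- the good elements form a subgroup -/
def goodSub (b : Fin (g + 1) → ℤ) (N : ℤ) (S : Sy (CoordRing b N) G) : AddSubgroup G where
  carrier := {x | Good b N S x}
  zero_mem' := good_zero
  add_mem' := good_add
  neg_mem' := good_neg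

lemma mem_goodSub {x : G} : x ∈ goodSub b N S ↔ Good b N S x := Iff.rfl

lemma cst_F (c : ℚˣ) : S.B (cst b N c) (uF b N) ∈ goodSub b N S := by
  refine ⟨0, c, 1, ?_⟩
  simp [S.one_left]

lemma cst_L (c : ℚˣ) (i : Fin (g + 1)) : S.B (cst b N c) (uL b N i) ∈ goodSub b N S := by
  refine ⟨0, 1, Pi.mulSingle i c, ?_⟩
  rw [map_one, S.one_left]
  rw [Finset.sum_eq_single i]
  · simp
  · intro j _ hj
    rw [Pi.mulSingle_eq_of_ne hj, map_one, S.one_left]
  · intro h
    exact absurd (Finset.mem_univ i) h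

lemma EL_sub (j : Fin (g + 1)) :
    S.B (uF b N) (uL b N j) - S.B (uF b N) (uL b N 0) ∈ goodSub b N S := by
  refine Fin.cases ?_ (fun p => ?_) j
  · rw [sub_self]
    exact zero_mem _
  · refine ⟨Pi.single p 1, 1, 1, ?_⟩
    have e1 : S.B (-(uT1 b N / uT b N)) (-(uL b N p.succ / uL b N 0)) =
        S.B (uF b N) (uL b N p.succ) - S.B (uF b N) (uL b N 0) := by
      rw [S.neg_left, S.neg_right, S.div_right]
      rfl
    rw [map_one, S.one_left, Finset.sum_eq_single p]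
    · rw [Pi.single_eq_same, one_smul, e1]
      simp [S.one_left]
    · intro q _ hq
      rw [Pi.single_eq_of_ne hq, zero_smul]
    · intro h
      exact absurd (Finset.mem_univ p) h

lemma F_uT : S.B (uF b N) (uT b N) = 0 := by
  have h : ((uF b N : (CoordRing b N)ˣ) : CoordRing b N) + (((uT b N)⁻¹ : (CoordRing b N)ˣ) : CoordRing b N) = 1 := by
    have h1 : ((uF b N : (CoordRing b N)ˣ) : CoordRing b N) =
        (uT1 b N : CoordRing b N) * (((uT b N)⁻¹ : (CoordRing b N)ˣ) : CoordRing b N) := by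
      unfold uF
      rw [div_eq_mul_inv, Units.val_mul]
    have h2 : (uT b N : CoordRing b N) * (((uT b N)⁻¹ : (CoordRing b N)ˣ) : CoordRing b N) = 1 :=
      Units.mul_inv _
    have h3 : (uT1 b N : CoordRing b N) = (uT b N : CoordRing b N) - 1 := rfl
    rw [h1, h3]
    linear_combination h2
  have h4 := S.st _ _ h
  rw [S.inv_right, neg_eq_zero] at h4
  exact h4

lemma F_uT1 : S.B (uF b N) (uT1 b N) = 0 := by
  have h : uT1 b N = uF b N * uT b N := by
    unfold uF
    rw [div_mul_cancel]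
  rw [h, S.mul_right, S.self, F_uT, add_zero]

lemma cst_int (n : ℤ) (hn : (n : ℚ) ≠ 0) :
    ((cst b N (Units.mk0 (n : ℚ) hn) : (CoordRing b N)ˣ) : CoordRing b N) = (n : CoordRing b N) := by
  show algebraMap ℚ (CoordRing b N) (n : ℚ) = _
  rw [map_intCast]

lemma rel2 (hN : (N : ℚ) ≠ 0) :
    ∑ i, S.B (uF b N) (uL b N i) = S.B (cst b N (Units.mk0 (N : ℚ) hN)) (uF b N) := by
  have h : cst b N (Units.mk0 (N : ℚ) hN) * (uT b N * uT1 b N) * ∏ i, uL b N i = 1 := by
    ext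
    rw [Units.val_mul, Units.val_mul, Units.val_mul, Units.coe_prod, cst_int, Units.val_one]
    exact eqn_cX b N
  have h1 : S.B (uF b N) (cst b N (Units.mk0 (N : ℚ) hN) * (uT b N * uT1 b N) * ∏ i, uL b N i) = 0 := by
    rw [h, S.one_right]
  rw [S.mul_right, S.mul_right, S.mul_right, F_uT, F_uT1, S.prod_right, add_zero, add_zero,
    S.anti (uF b N) (cst b N _)] at h1
  exact (neg_add_eq_zero.1 h1).symm

lemma EL (hN : (N : ℚ) ≠ 0) (j : Fin (g + 1)) :
    (g + 1) • S.B (uF b N) (uL b N j) ∈ goodSub b N S := by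
  have h : (g + 1) • S.B (uF b N) (uL b N j) =
      ∑ i : Fin (g + 1), ((S.B (uF b N) (uL b N j) - S.B (uF b N) (uL b N 0)) -
        (S.B (uF b N) (uL b N i) - S.B (uF b N) (uL b N 0))) +
      S.B (cst b N (Units.mk0 (N : ℚ) hN)) (uF b N) := by
    rw [← rel2 (S := S) hN]
    rw [← Finset.sum_add_distrib]
    have : ∀ i : Fin (g + 1), S.B (uF b N) (uL b N j) - S.B (uF b N) (uL b N 0) -
        (S.B (uF b N) (uL b N i) - S.B (uF b N) (uL b N 0)) + S.B (uF b N) (uL b N i) =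
        S.B (uF b N) (uL b N j) := fun i => by abel
    rw [Finset.sum_congr rfl fun i _ => this i, Finset.sum_const, Finset.card_univ, Fintype.card_fin]
  rw [h]
  exact add_mem (sum_mem fun i _ => sub_mem (EL_sub j) (EL_sub i)) (cst_F _)

lemma LL (hb : Function.Injective b) (hQ : ∀ c d : ℚˣ, S.B (cst b N c) (cst b N d) = 0)
    (i j : Fin (g + 1)) : S.B (uL b N i) (uL b N j) ∈ goodSub b N S := by
  rcases eq_or_ne i j with rfl | hij
  · rw [S.self]
    exact zero_mem _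
  have hd : ((b j - b i : ℤ) : ℚ) ≠ 0 := by
    rw [Int.cast_ne_zero, sub_ne_zero]
    exact fun h => hij (hb h).symm
  set d : ℚˣ := Units.mk0 ((b j - b i : ℤ) : ℚ) hd with hdd
  have hv : ((cst b N d : (CoordRing b N)ˣ) : CoordRing b N) = ((b j - b i : ℤ) : CoordRing b N) :=
    cst_int _ _
  have h1 : ((uL b N i / cst b N d : (CoordRing b N)ˣ) : CoordRing b N) +
      ((-(uL b N j / cst b N d) : (CoordRing b N)ˣ) : CoordRing b N) = 1 := by
    rw [Units.val_neg, div_eq_mul_inv, div_eq_mul_inv, Units.val_mul, Units.val_mul, uL_val, uL_val]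
    have h2 : ((cst b N d : (CoordRing b N)ˣ) : CoordRing b N) *
        (((cst b N d)⁻¹ : (CoordRing b N)ˣ) : CoordRing b N) = 1 := Units.mul_inv _
    rw [hv] at h2
    push_cast at h2
    linear_combination h2
  have h3 := S.st _ _ h1
  rw [S.neg_right, S.div_left, S.div_right, S.div_right, hQ, sub_zero, S.anti (uL b N i) (cst b N d)] at h3
  have h4 : S.B (uL b N i) (uL b N j) = S.B (cst b N d) (uL b N j) - S.B (cst b N d) (uL b N i) := by
    have := sub_eq_zero.1 h3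
    rw [sub_neg_eq_add] at this
    exact eq_sub_of_add_eq this
  rw [h4]
  exact sub_mem (cst_L _ _) (cst_L _ _)

/-- left entries with good symbols -/
def HL (b : Fin (g + 1) → ℤ) (N : ℤ) (S : Sy (CoordRing b N) G) (y : (CoordRing b N)ˣ) :
    Subgroup (CoordRing b N)ˣ where
  carrier := {x | (g + 1) • S.B x y ∈ goodSub b N S}
  one_mem' := by
    show (g + 1) • S.B 1 y ∈ goodSub b N S
    rw [S.one_left, smul_zero]
    exact zero_mem _
  mul_mem' := by
    intro x x' hx hx'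
    show (g + 1) • S.B (x * x') y ∈ goodSub b N S
    rw [S.mul_left, smul_add]
    exact add_mem hx hx'
  inv_mem' := by
    intro x hx
    show (g + 1) • S.B x⁻¹ y ∈ goodSub b N S
    rw [S.inv_left, smul_neg]
    exact neg_mem hx

lemma mem_HL {x y : (CoordRing b N)ˣ} : x ∈ HL b N S y ↔ (g + 1) • S.B x y ∈ goodSub b N S := Iff.rfl

lemma HL_symm {x y : (CoordRing b N)ˣ} (h : x ∈ HL b N S y) : y ∈ HL b N S x := by
  rw [mem_HL] at h ⊢
  rw [S.anti, smul_neg]
  exact neg_mem h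

lemma mem_of_gen {y u : (CoordRing b N)ˣ} (h1 : ∀ c, cst b N c ∈ HL b N S y) (h2 : uF b N ∈ HL b N S y)
    (h3 : ∀ i, uL b N i ∈ HL b N S y)
    (hu : ∃ (c : ℚˣ) (k : ℤ) (κ : Fin (g + 1) → ℤ),
      u = cst b N c * uF b N ^ k * ∏ i, uL b N i ^ κ i) : u ∈ HL b N S y := by
  obtain ⟨c, k, κ, rfl⟩ := hu
  exact mul_mem (mul_mem (h1 c) (zpow_mem h2 k)) (prod_mem fun i _ => zpow_mem (h3 i) _)

end AlgBAux

open AlgBAux

theorem good_pair (hb : Function.Injective b) (hN : N ≠ 0)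
    (hQ : ∀ c d : ℚˣ, S.B (cst b N c) (cst b N d) = 0) (u v : (CoordRing b N)ˣ)
    (hu : ∃ (c : ℚˣ) (k : ℤ) (κ : Fin (g + 1) → ℤ),
      u ^ 2 = cst b N c * uF b N ^ k * ∏ i, uL b N i ^ κ i)
    (hv : ∃ (c : ℚˣ) (k : ℤ) (κ : Fin (g + 1) → ℤ),
      v ^ 2 = cst b N c * uF b N ^ k * ∏ i, uL b N i ^ κ i) :
    Good b N S ((4 * (g + 1)) • S.B u v) := by
  have hN' : (N : ℚ) ≠ 0 := Int.cast_ne_zero.2 hN
  have cc : ∀ c d : ℚˣ, cst b N c ∈ HL b N S (cst b N d) := fun c d => by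
    rw [mem_HL, hQ, smul_zero]
    exact zero_mem _
  have cF : ∀ c : ℚˣ, cst b N c ∈ HL b N S (uF b N) := fun c => nsmul_mem (cst_F c) _
  have cL : ∀ (c : ℚˣ) (i : Fin (g + 1)), cst b N c ∈ HL b N S (uL b N i) := fun c i =>
    nsmul_mem (cst_L c i) _
  have FF : uF b N ∈ HL b N S (uF b N) := by
    rw [mem_HL, S.self, smul_zero]
    exact zero_mem _
  have FL : ∀ i, uF b N ∈ HL b N S (uL b N i) := fun i => EL hN' i
  have LL' : ∀ i j, uL b N i ∈ HL b N S (uL b N j) := fun i j => nsmul_mem (LL hb hQ i j) _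
  have uc : ∀ c : ℚˣ, u ^ 2 ∈ HL b N S (cst b N c) := fun c =>
    mem_of_gen (fun d => cc d c) (HL_symm (cF c)) (fun i => HL_symm (cL c i)) hu
  have uFm : u ^ 2 ∈ HL b N S (uF b N) := mem_of_gen cF FF (fun i => HL_symm (FL i)) hu
  have uLm : ∀ i, u ^ 2 ∈ HL b N S (uL b N i) := fun i =>
    mem_of_gen (fun d => cL d i) (FL i) (fun j => LL' j i) hu
  have hvu : v ^ 2 ∈ HL b N S (u ^ 2) :=
    mem_of_gen (fun c => HL_symm (uc c)) (HL_symm uFm) (fun i => HL_symm (uLm i)) hv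
  have huv : (g + 1) • S.B (u ^ 2) (v ^ 2) ∈ goodSub b N S := HL_symm hvu
  have e : (4 * (g + 1)) • S.B u v = (g + 1) • S.B (u ^ 2) (v ^ 2) := by
    rw [S.pow_left, S.pow_right, smul_smul, smul_smul]
    congr 1
    ring
  rw [e]
  exact huv

end P4a177u
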