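import Pool.Agent.Lib.P4a177d.Defs

/-!
# The symbol part of `K_2` of the curves `N t (t - 1) ∏ (x - b_i) = 1`: definitions
-/

set_option autoImplicit false

namespace P4a177u

open P4a177h P4a177d

noncomputable section

/-- A symbol on the units of `R` with values in a torsion free group `G`: bilinear, with the Steinberg
relation and with `{a, -a} = 0`. -/
structure Sy (R : Type*) [CommRing R] (G : Type*) [AddCommGroup G] where
  /-- the symbol -/
  B : Rˣ → Rˣ → G
  mul_left : ∀ a b c, B (a * b) c = B a c + B b c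
  mul_right : ∀ a b c, B a (b * c) = B a b + B a c
  neg : ∀ a, B a (-a) = 0
  st : ∀ a b : Rˣ, (a : R) + (b : R) = 1 → B a b = 0
  tf : ∀ (k : ℕ) (x : G), 0 < k → k • x = 0 → x = 0

namespace Sy

variable {R : Type*} [CommRing R] {G : Type*} [AddCommGroup G] (S : Sy R G)

theorem one_left (a : Rˣ) : S.B 1 a = 0 := by
  have h := S.mul_left 1 1 a
  rw [mul_one] at h
  simpa using h.symm

theorem one_right (a : Rˣ) : S.B a 1 = 0 := by
  have h := S.mul_right a 1 1
  rw [mul_one] at h
  simpa using h.symm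

theorem inv_left (a b : Rˣ) : S.B a⁻¹ b = -S.B a b := by
  have h := S.mul_left a a⁻¹ b
  rw [mul_inv_cancel, S.one_left] at h
  exact (neg_eq_of_add_eq_zero_right h.symm).symm

theorem inv_right (a b : Rˣ) : S.B a b⁻¹ = -S.B a b := by
  have h := S.mul_right a b b⁻¹
  rw [mul_inv_cancel, S.one_right] at h
  exact (neg_eq_of_add_eq_zero_right h.symm).symm

theorem div_left (a b c : Rˣ) : S.B (a / b) c = S.B a c - S.B b c := by
  rw [div_eq_mul_inv, S.mul_left, S.inv_left, sub_eq_add_neg]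

theorem div_right (a b c : Rˣ) : S.B a (b / c) = S.B a b - S.B a c := by
  rw [div_eq_mul_inv, S.mul_right, S.inv_right, sub_eq_add_neg]

/-- The symbol as a homomorphism in the first entry. -/
def homL (c : Rˣ) : Additive Rˣ →+ G := AddMonoidHom.mk' (fun a => S.B a.toMul c) fun a b => by
  rw [toMul_add, S.mul_left]

/-- The symbol as a homomorphism in the second entry. -/
def homR (c : Rˣ) : Additive Rˣ →+ G := AddMonoidHom.mk' (fun a => S.B c a.toMul) fun a b => by
  rw [toMul_add, S.mul_right]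

theorem homL_apply (a c : Rˣ) : S.homL c (Additive.ofMul a) = S.B a c := rfl
theorem homR_apply (a c : Rˣ) : S.homR c (Additive.ofMul a) = S.B c a := rfl

theorem pow_left (a c : Rˣ) (n : ℕ) : S.B (a ^ n) c = n • S.B a c := by
  rw [← S.homL_apply, ofMul_pow, map_nsmul, S.homL_apply]

theorem pow_right (a c : Rˣ) (n : ℕ) : S.B c (a ^ n) = n • S.B c a := by
  rw [← S.homR_apply, ofMul_pow, map_nsmul, S.homR_apply]

theorem zpow_left (a c : Rˣ) (n : ℤ) : S.B (a ^ n) c = n • S.B a c := by
  rw [← S.homL_apply, ofMul_zpow, map_zsmul, S.homL_apply]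

theorem zpow_right (a c : Rˣ) (n : ℤ) : S.B c (a ^ n) = n • S.B c a := by
  rw [← S.homR_apply, ofMul_zpow, map_zsmul, S.homR_apply]

theorem prod_left {ι : Type*} (s : Finset ι) (f : ι → Rˣ) (c : Rˣ) :
    S.B (∏ i ∈ s, f i) c = ∑ i ∈ s, S.B (f i) c := by
  rw [← S.homL_apply, ofMul_prod, map_sum]
  rfl

theorem prod_right {ι : Type*} (s : Finset ι) (f : ι → Rˣ) (c : Rˣ) :
    S.B c (∏ i ∈ s, f i) = ∑ i ∈ s, S.B c (f i) := by
  rw [← S.homR_apply, ofMul_prod, map_sum]
  rfl

theorem neg_one_left (a : Rˣ) : S.B (-1) a = 0 := by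
  apply S.tf 2 _ (by norm_num)
  rw [← S.pow_left, neg_one_sq, S.one_left]

theorem neg_one_right (a : Rˣ) : S.B a (-1) = 0 := by
  apply S.tf 2 _ (by norm_num)
  rw [← S.pow_right, neg_one_sq, S.one_right]

theorem neg_left (a b : Rˣ) : S.B (-a) b = S.B a b := by
  rw [← neg_one_mul, S.mul_left, S.neg_one_left, zero_add]

theorem neg_right (a b : Rˣ) : S.B a (-b) = S.B a b := by
  rw [← neg_one_mul, S.mul_right, S.neg_one_right, zero_add]

theorem self (a : Rˣ) : S.B a a = 0 := by
  rw [← S.neg_right, S.neg]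

theorem anti (a b : Rˣ) : S.B a b = -S.B b a := by
  have h := S.self (a * b)
  rw [S.mul_left, S.mul_right, S.mul_right, S.self, S.self, zero_add, add_zero] at h
  exact eq_neg_of_add_eq_zero_left h

end Sy

/-- The subgroup of `K_2(R)` generated by the symbols `{u, -u}` (they vanish in `K_2` of a field). -/
def negSub (R : Type*) [CommRing R] : AddSubgroup (MilnorK 2 R) :=
  AddSubgroup.closure {x | ∃ u : Rˣ, x = symb ![u, -u]}

/-- The elements of `K_2(R)` a positive multiple of which is a sum of symbols `± {u, -u}`. -/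
def Tor (R : Type*) [CommRing R] : AddSubgroup (MilnorK 2 R) where
  carrier := {x | ∃ k : ℕ, 0 < k ∧ k • x ∈ negSub R}
  zero_mem' := ⟨1, one_pos, by rw [smul_zero]; exact zero_mem _⟩
  add_mem' := by
    rintro x y ⟨k, hk, hx⟩ ⟨l, hl, hy⟩
    refine ⟨k * l, Nat.mul_pos hk hl, ?_⟩
    have e : (k * l) • (x + y) = l • (k • x) + k • (l • y) := by
      rw [nsmul_add, mul_comm k l, mul_nsmul' x, mul_comm l k, mul_nsmul' y]
    rw [e]
    exact add_mem (AddSubgroup.nsmul_mem _ hx _) (AddSubgroup.nsmul_mem _ hy _)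
  neg_mem' := by
    rintro x ⟨k, hk, hx⟩
    refine ⟨k, hk, ?_⟩
    have e : k • (-x) = -(k • x) := neg_nsmul x k
    rw [e]
    exact neg_mem hx

variable {g : ℕ} (b : Fin (g + 1) → ℤ) (N : ℤ)

/-- The constants. -/
def cst : ℚˣ →* (CoordRing b N)ˣ := Units.map (algebraMap ℚ (CoordRing b N) : ℚ →* CoordRing b N)

/-- The polynomial `P = N ∏_i (X - b_i)`. -/
def PQ : Polynomial ℚ := Polynomial.C (N : ℚ) * ∏ i, (Polynomial.X - Polynomial.C (b i : ℚ))

/-- The polynomial `D = P (P + 4)`. -/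
def DQ : Polynomial ℚ := PQ b N * (PQ b N + 4)

/-- The value of a polynomial at the function `x`. -/
def ev : Polynomial ℚ →ₐ[ℚ] CoordRing b N := Polynomial.aeval (cX b N)

/-- The function `w = P (2 t - 1)`, `w ^ 2 = P (P + 4)`. -/
def cW : CoordRing b N := ev b N (PQ b N) * (2 * cT b N - 1)

/-- The element of `G` is the value of an explicit combination of the symbols `{e, x - b_i}`,
`{c, e}`, `{c, x - b_i}`, where `e = (t - 1) / t` and the `c` are constants. -/
def Good {G : Type*} [AddCommGroup G] (S : Sy (CoordRing b N) G) (x : G) : Prop :=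
  ∃ (n : Fin g → ℤ) (c : ℚˣ) (d : Fin (g + 1) → ℚˣ),
    x = ∑ p, n p • S.B (-(uT1 b N / uT b N)) (-(uL b N p.succ / uL b N 0)) +
      S.B (cst b N c) (uF b N) + ∑ i, S.B (cst b N (d i)) (uL b N i)

end

end P4a177u
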