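import Pool.Agent.Lib.P4a177u.Repr

/-!
# MODULE P4a177u.FinD: the function field is finite over `ℚ(y)` if `x ∈ ℚ(y)`

PROOFS. `algebraMap (CoordRing b N) K` is injective (`IsFractionRing.injective`). `charZero`: compose with
`algebraMap ℚ (CoordRing b N)`; a ring homomorphism from the field `ℚ` to a field is injective. `map_ev`:
`algebraMap (ev f) = aeval x f` (both are ring homomorphisms on `ℚ[X]` that agree on `X` and on constants;
`Polynomial.ringHom_ext`, `map_ratCast`/`RingHom.map_rat_algebraMap`). `transc`: if `aeval x f = 0` then `ev f = 0`, so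
`f = 0` by `indep` (with `q = 0`). `finDim`: let `F = ℚ(y)`; `t = algebraMap (cT b N)` is
integral over `F`: root of `T² - T - 1 / P(x)` (`eqn_cX`), `P(x) ∈ F`, `P(x) ≠ 0`. `IntermediateField.adjoin F {t}` is `⊤`:
every element of `K` is a quotient of elements of the coordinate ring (`IsFractionRing.div_surjective`), and every
element of the coordinate ring is a polynomial in `x` and `t` (`Ideal.Quotient.mk_surjective`,
`MvPolynomial.induction_on`). `IntermediateField.adjoin.finiteDimensional`, then `LinearEquiv.finiteDimensional`
with `IntermediateField.topEquiv`, or `IntermediateField.finiteDimensional_of_top`-like lemmas.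
-/

set_option autoImplicit false

namespace P4a177u

open P4a177h P4a177d

variable {g : ℕ} (b : Fin (g + 1) → ℤ) (N : ℤ) (K : Type) [Field K] [Algebra (CoordRing b N) K]
  [IsFractionRing (CoordRing b N) K]

include b N in
theorem charZero : CharZero K :=
  charZero_of_injective_ringHom (f := (algebraMap (CoordRing b N) K).comp
    (algebraMap ℚ (CoordRing b N))) (RingHom.injective _)

theorem map_ev [CharZero K] (f : Polynomial ℚ) :
    algebraMap (CoordRing b N) K (ev b N f) =
      Polynomial.aeval (algebraMap (CoordRing b N) K (cX b N)) f := by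
  have h : (algebraMap (CoordRing b N) K).comp (ev b N : Polynomial ℚ →+* CoordRing b N) =
      ((Polynomial.aeval (algebraMap (CoordRing b N) K (cX b N)) : Polynomial ℚ →ₐ[ℚ] K) :
        Polynomial ℚ →+* K) := by
    refine Polynomial.ringHom_ext (fun a => ?_) ?_
    · have h1 : (((algebraMap (CoordRing b N) K).comp
          (ev b N : Polynomial ℚ →+* CoordRing b N)).comp Polynomial.C) a = (a : K) :=
        eq_ratCast _ a
      have h2 : ((((Polynomial.aeval (algebraMap (CoordRing b N) K (cX b N)) :
          Polynomial ℚ →ₐ[ℚ] K) : Polynomial ℚ →+* K)).comp Polynomial.C) a = (a : K) :=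
        eq_ratCast _ a
      exact h1.trans h2.symm
    · show algebraMap (CoordRing b N) K (Polynomial.aeval (cX b N) Polynomial.X) =
        Polynomial.aeval (algebraMap (CoordRing b N) K (cX b N)) Polynomial.X
      rw [Polynomial.aeval_X, Polynomial.aeval_X]
  exact RingHom.congr_fun h f

theorem transc (hN : N ≠ 0) [CharZero K] :
    Transcendental ℚ (algebraMap (CoordRing b N) K (cX b N)) := by
  rintro ⟨f, hf, h⟩
  rw [← map_ev b N K f] at h
  have h2 : ev b N f = 0 := by
    apply IsFractionRing.injective (CoordRing b N) K
    rw [h, map_zero]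
  exact hf (indep b N hN f 0 (by rw [h2, map_zero, zero_mul, add_zero])).1

namespace FinDAux

/-- the equation of the curve in `K` -/
theorem eqnK : (N : K) * (algebraMap (CoordRing b N) K (cT b N) *
    (algebraMap (CoordRing b N) K (cT b N) - 1)) *
    ∏ i, (algebraMap (CoordRing b N) K (cX b N) - (b i : K)) = 1 := by
  have h := congrArg (algebraMap (CoordRing b N) K) (eqn_cX b N)
  simp only [map_mul, map_prod, map_sub, map_one, map_intCast] at h
  exact h

/-- elements of the coordinate ring lie in every subfield that contains `x` and `t` -/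
theorem mem_of {F : Subfield K} (hx : algebraMap (CoordRing b N) K (cX b N) ∈ F)
    (ht : algebraMap (CoordRing b N) K (cT b N) ∈ F) (r : CoordRing b N) :
    algebraMap (CoordRing b N) K r ∈ F := by
  obtain ⟨p, rfl⟩ := Ideal.Quotient.mk_surjective r
  induction p using MvPolynomial.induction_on with
  | C a =>
    have h : (((algebraMap (CoordRing b N) K).comp
        (Ideal.Quotient.mk (Ideal.span {eqn b N}))).comp MvPolynomial.C) a = (a : K) := by
      have := charZero b N K
      exact eq_ratCast _ a
    have h2 : algebraMap (CoordRing b N) K (Ideal.Quotient.mk _ (MvPolynomial.C a)) = (a : K) := h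
    rw [h2]
    exact SubfieldClass.ratCast_mem F a
  | add p q hp hq =>
    rw [map_add, map_add]
    exact F.add_mem hp hq
  | mul_X p i hp =>
    rw [map_mul, map_mul]
    refine F.mul_mem hp ?_
    fin_cases i
    · exact hx
    · exact ht

theorem isIntegral_of {F L : Type*} [Field F] [Field L] [Algebra F L] (c : F) (t : L)
    (h : t ^ 2 - t = algebraMap F L c) : IsIntegral F t := by
  have hd : (Polynomial.X + Polynomial.C c).degree < ((2 : ℕ) : WithBot ℕ) := by
    rw [Polynomial.degree_X_add_C]
    exact_mod_cast Nat.one_lt_two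
  refine ⟨Polynomial.X ^ 2 - (Polynomial.X + Polynomial.C c), Polynomial.monic_X_pow_sub hd, ?_⟩
  rw [Polynomial.eval₂_sub, Polynomial.eval₂_pow, Polynomial.eval₂_add, Polynomial.eval₂_X,
    Polynomial.eval₂_C, ← h]
  ring

end FinDAux

theorem finDim (hN : N ≠ 0) [CharZero K] (y : K)
    (hx : algebraMap (CoordRing b N) K (cX b N) ∈ IntermediateField.adjoin ℚ {y}) :
    FiniteDimensional (IntermediateField.adjoin ℚ {y}) K := by
  set F := IntermediateField.adjoin ℚ {y} with hF
  set t := algebraMap (CoordRing b N) K (cT b N) with ht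
  set x := algebraMap (CoordRing b N) K (cX b N) with hxd
  have heq : (N : K) * (t * (t - 1)) * ∏ i, (x - (b i : K)) = 1 := FinDAux.eqnK b N K
  have hPF : (N : K) * ∏ i, (x - (b i : K)) ∈ F :=
    F.mul_mem (intCast_mem F N) (F.prod_mem fun i _ => F.sub_mem hx (intCast_mem F (b i)))
  have hP0 : (N : K) * ∏ i, (x - (b i : K)) ≠ 0 := by
    intro h
    have h2 : (t * (t - 1)) * ((N : K) * ∏ i, (x - (b i : K))) = 1 := by
      linear_combination heq
    rw [h, mul_zero] at h2
    exact zero_ne_one h2
  have h3 : t ^ 2 - t = ((N : K) * ∏ i, (x - (b i : K)))⁻¹ := by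
    refine eq_inv_of_mul_eq_one_left ?_
    linear_combination heq
  have hint : IsIntegral F t :=
    FinDAux.isIntegral_of (⟨_, F.inv_mem hPF⟩ : F) t h3
  have hfin := IntermediateField.adjoin.finiteDimensional hint
  have htop : IntermediateField.adjoin F {t} = ⊤ := by
    rw [eq_top_iff]
    intro z _
    have hx' : x ∈ (IntermediateField.adjoin F {t}).toSubfield :=
      (IntermediateField.adjoin F {t}).algebraMap_mem (⟨x, hx⟩ : F)
    have ht' : t ∈ (IntermediateField.adjoin F {t}).toSubfield :=
      IntermediateField.mem_adjoin_simple_self F t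
    obtain ⟨u, v, -, rfl⟩ := IsFractionRing.div_surjective (A := CoordRing b N) z
    exact (IntermediateField.adjoin F {t}).toSubfield.div_mem (FinDAux.mem_of b N K hx' ht' u)
      (FinDAux.mem_of b N K hx' ht' v)
  rw [htop] at hfin
  exact LinearEquiv.finiteDimensional (IntermediateField.topEquiv (F := F) (E := K)).toLinearEquiv

end P4a177u
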