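import Pool.Agent.Lib.P4a177h.Milnor

/-!
# The Milnor K-group `K_2` of the rational numbers is torsion
-/

set_option autoImplicit false

namespace P4a177uH

open P4a177h Function

section General

variable {K : Type*} [Field K]

theorem upd0 (a b c : Kˣ) : update ![a, b] (0 : Fin 2) c = ![c, b] := by
  ext i
  fin_cases i <;> simp

theorem upd1 (a b c : Kˣ) : update ![a, b] (1 : Fin 2) c = ![a, c] := by
  ext i
  fin_cases i <;> simp

theorem symb_mul_left (a b c : Kˣ) :
    (symb ![a * b, c] : MilnorK 2 K) = symb ![a, c] + symb ![b, c] := by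
  have h := symb_mul (![a, c] : Fin 2 → Kˣ) 0 a b
  rwa [upd0, upd0, upd0] at h

theorem symb_mul_right (a b c : Kˣ) :
    (symb ![a, b * c] : MilnorK 2 K) = symb ![a, b] + symb ![a, c] := by
  have h := symb_mul (![a, c] : Fin 2 → Kˣ) 1 b c
  rwa [upd1, upd1, upd1] at h

/-- The symbol as a homomorphism in the first entry. -/
def symbL (b : Kˣ) : Additive Kˣ →+ MilnorK 2 K where
  toFun a := symb ![a.toMul, b]
  map_zero' := by
    have h := symb_mul_left (1 : Kˣ) 1 b
    rw [mul_one] at h
    exact (left_eq_add.1 h)
  map_add' a c := symb_mul_left _ _ _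

/-- The symbol as a homomorphism in the second entry. -/
def symbR (a : Kˣ) : Additive Kˣ →+ MilnorK 2 K where
  toFun b := symb ![a, b.toMul]
  map_zero' := by
    have h := symb_mul_right a (1 : Kˣ) 1
    rw [mul_one] at h
    exact (left_eq_add.1 h)
  map_add' b c := symb_mul_right _ _ _

theorem symb_one_left (b : Kˣ) : (symb ![1, b] : MilnorK 2 K) = 0 := (symbL b).map_zero

theorem symb_one_right (a : Kˣ) : (symb ![a, 1] : MilnorK 2 K) = 0 := (symbR a).map_zero

theorem symb_inv_left (a b : Kˣ) : (symb ![a⁻¹, b] : MilnorK 2 K) = -symb ![a, b] :=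
  (symbL b).map_neg (Additive.ofMul a)

theorem symb_inv_right (a b : Kˣ) : (symb ![a, b⁻¹] : MilnorK 2 K) = -symb ![a, b] :=
  (symbR a).map_neg (Additive.ofMul b)

theorem symb_steinberg2 {a b : Kˣ} (h : (a : K) + b = 1) : (symb ![a, b] : MilnorK 2 K) = 0 :=
  symb_steinberg _ 0 1 rfl h

/-- `{a, -a} = 0` in a field. -/
theorem symb_neg_self (a : Kˣ) : (symb ![a, -a] : MilnorK 2 K) = 0 := by
  by_cases ha : (a : K) = 1
  · have h1 : a = 1 := Units.ext ha
    rw [h1]
    exact symb_one_left _
  · have h1 : (1 : K) - a ≠ 0 := sub_ne_zero.2 (Ne.symm ha)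
    have h2 : (1 : K) - (a : K)⁻¹ ≠ 0 := by
      intro h
      apply ha
      have h3 := a.ne_zero
      field_simp at h
      linear_combination h
    have e : (-a : Kˣ) = Units.mk0 _ h1 * (Units.mk0 _ h2)⁻¹ := by
      ext
      have h3 := a.ne_zero
      simp only [Units.val_neg, Units.val_mul, Units.val_mk0, Units.val_inv_eq_inv_val]
      rw [eq_mul_inv_iff_mul_eq₀ h2]
      field_simp
      ring
    rw [e, symb_mul_right, symb_inv_right, symb_steinberg2 (by simp : (a : K) + (Units.mk0 _ h1 : Kˣ) = 1)]
    have h4 : (symb ![a⁻¹, Units.mk0 _ h2] : MilnorK 2 K) = 0 :=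
      symb_steinberg2 (by simp)
    rw [symb_inv_left] at h4
    rw [zero_add]
    exact h4

theorem symb_skew (a b : Kˣ) : (symb ![a, b] : MilnorK 2 K) = -symb ![b, a] := by
  have h := symb_neg_self (a * b)
  have e1 : (-(a * b) : Kˣ) = -a * b := by simp
  have e2 : (-(a * b) : Kˣ) = -b * a := by
    rw [neg_mul, mul_comm]
  rw [symb_mul_left] at h
  nth_rewrite 1 [e1] at h
  rw [e2, symb_mul_right, symb_mul_right, symb_neg_self, symb_neg_self, zero_add, zero_add] at h
  exact eq_neg_of_add_eq_zero_left h

/-- `{a, -1}` is killed by `2`. -/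
theorem symb_neg_one (a : Kˣ) : (2 : ℕ) • (symb ![a, -1] : MilnorK 2 K) = 0 := by
  have h := symb_mul_right a (-1 : Kˣ) (-1)
  rw [neg_mul_neg, mul_one, symb_one_right] at h
  rw [two_nsmul]
  exact h.symm

/-- `{a, a}` is killed by `2`. -/
theorem symb_self (a : Kˣ) : (2 : ℕ) • (symb ![a, a] : MilnorK 2 K) = 0 := by
  have h := symb_neg_self a
  have e : (-a : Kˣ) = -1 * a := by simp
  rw [e, symb_mul_right] at h
  have h2 : (symb ![a, a] : MilnorK 2 K) = -symb ![a, -1] := eq_neg_of_add_eq_zero_right h
  rw [h2, neg_nsmul, symb_neg_one, neg_zero]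

end General

/-- The torsion elements. -/
def Tor {M : Type*} [AddCommGroup M] (x : M) : Prop := ∃ k : ℕ, 0 < k ∧ k • x = 0

section Tor

variable {M : Type*} [AddCommGroup M]

theorem Tor.zero : Tor (0 : M) := ⟨1, one_pos, smul_zero _⟩

theorem Tor.add {x y : M} (hx : Tor x) (hy : Tor y) : Tor (x + y) := by
  obtain ⟨k, hk, h1⟩ := hx
  obtain ⟨l, hl, h2⟩ := hy
  refine ⟨k * l, Nat.mul_pos hk hl, ?_⟩
  rw [smul_add, mul_comm, mul_smul, h1, smul_zero, zero_add, mul_comm, mul_smul, h2, smul_zero]

theorem Tor.neg {x : M} (hx : Tor x) : Tor (-x) := by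
  obtain ⟨k, hk, h1⟩ := hx
  exact ⟨k, hk, by rw [smul_neg, h1, neg_zero]⟩

theorem Tor.sub {x y : M} (hx : Tor x) (hy : Tor y) : Tor (x - y) := by
  rw [sub_eq_add_neg]
  exact hx.add hy.neg

theorem Tor.nsmul {x : M} (hx : Tor x) (n : ℕ) : Tor (n • x) := by
  obtain ⟨k, hk, h1⟩ := hx
  exact ⟨k, hk, by rw [smul_comm, h1, smul_zero]⟩

theorem Tor.zsmul {x : M} (hx : Tor x) (n : ℤ) : Tor (n • x) := by
  obtain ⟨k, hk, h1⟩ := hx
  exact ⟨k, hk, by rw [smul_comm, h1, smul_zero]⟩

theorem Tor.of_nsmul {x : M} {n : ℕ} (hn : 0 < n) (hx : Tor (n • x)) : Tor x := by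
  obtain ⟨k, hk, h1⟩ := hx
  exact ⟨k * n, Nat.mul_pos hk hn, by rw [mul_smul, h1]⟩

theorem Tor.sum {ι : Type*} (s : Finset ι) (f : ι → M) (h : ∀ i ∈ s, Tor (f i)) :
    Tor (∑ i ∈ s, f i) := by
  classical
  induction s using Finset.induction_on with
  | empty => simpa using Tor.zero
  | insert a s ha ih =>
    rw [Finset.sum_insert ha]
    exact (h a (by simp)).add (ih fun i hi => h i (by simp [hi]))

theorem Tor.map {M' : Type*} [AddCommGroup M'] (f : M →+ M') {x : M} (hx : Tor x) : Tor (f x) := by
  obtain ⟨k, hk, h1⟩ := hx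
  exact ⟨k, hk, by rw [← map_nsmul, h1, map_zero]⟩

end Tor

/-- A positive integer as a unit of `ℚ`. -/
def un (n : ℕ) (hn : 0 < n) : ℚˣ := Units.mk0 (n : ℚ) (by exact_mod_cast hn.ne')

theorem un_mul {m n : ℕ} (hm : 0 < m) (hn : 0 < n) :
    un (m * n) (Nat.mul_pos hm hn) = un m hm * un n hn := by
  ext
  simp [un]

/-- The symbols of the positive integers up to `n` are torsion. -/
theorem tor_un (n : ℕ) : ∀ a b : ℕ, ∀ ha : 0 < a, ∀ hb : 0 < b, a ≤ n → b ≤ n →
    Tor (symb ![un a ha, un b hb] : MilnorK 2 ℚ) := by
  induction n with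
  | zero =>
    intro a b ha hb h1 h2
    omega
  | succ n ih =>
    -- it is enough to treat the pairs `(n + 1, b)`, `b ≤ n`
    have key : ∀ b : ℕ, ∀ hb : 0 < b, b ≤ n →
        Tor (symb ![un (n + 1) n.succ_pos, un b hb] : MilnorK 2 ℚ) := by
      by_cases hp : (n + 1).Prime
      · -- Tate's argument
        set p := n + 1 with hpdef
        have hp0 : 0 < p := n.succ_pos
        -- the symbol `{p, ·}` is multiplicative modulo `p`
        have hmul : ∀ a b : ℕ, ∀ ha : 0 < a, ∀ hb : 0 < b, a < p → b < p →
            ∀ hr : 0 < (a * b) % p,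
            Tor (symb ![un p hp0, un a ha] + symb ![un p hp0, un b hb] -
              symb ![un p hp0, un ((a * b) % p) hr] : MilnorK 2 ℚ) := by
          intro a b ha hb hap hbp hr
          have hab : a * b = p * ((a * b) / p) + (a * b) % p := (Nat.div_add_mod _ _).symm
          have hrp : (a * b) % p < p := Nat.mod_lt _ hp0
          rcases Nat.eq_zero_or_pos ((a * b) / p) with hq | hq
          · rw [hq, mul_zero, zero_add] at hab
            have e : un ((a * b) % p) hr = un a ha * un b hb := by
              rw [← un_mul ha hb]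
              congr 1
              exact hab.symm
            rw [e, symb_mul_right, sub_self]
            exact Tor.zero
          · have hqp : (a * b) / p < p := by
              rw [Nat.div_lt_iff_lt_mul hp0]
              exact Nat.mul_lt_mul_of_lt_of_lt hap hbp
            -- the Steinberg relation
            have hst : (symb ![un ((a * b) / p) hq * un p hp0 * (un a ha * un b hb)⁻¹,
                un ((a * b) % p) hr * (un a ha * un b hb)⁻¹] : MilnorK 2 ℚ) = 0 := by
              apply symb_steinberg2
              simp only [un, Units.val_mul, Units.val_inv_eq_inv_val, Units.val_mk0]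
              have h1 : ((a * b : ℕ) : ℚ) = (p : ℚ) * ((a * b / p : ℕ) : ℚ) +
                  (((a * b) % p : ℕ) : ℚ) := by exact_mod_cast hab
              have h2 : (a : ℚ) ≠ 0 := by exact_mod_cast ha.ne'
              have h3 : (b : ℚ) ≠ 0 := by exact_mod_cast hb.ne'
              have h4 : ((a * b : ℕ) : ℚ) = (a : ℚ) * b := by push_cast; ring
              rw [h4] at h1
              field_simp
              linear_combination -h1
            set A := un a ha
            set B := un b hb
            set Q := un ((a * b) / p) hq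
            set R := un ((a * b) % p) hr
            set P := un p hp0
            have hAR : Tor (symb ![A, R] : MilnorK 2 ℚ) := ih a _ ha hr (by omega) (by omega)
            have hBR : Tor (symb ![B, R] : MilnorK 2 ℚ) := ih b _ hb hr (by omega) (by omega)
            have hQR : Tor (symb ![Q, R] : MilnorK 2 ℚ) := ih _ _ hq hr (by omega) (by omega)
            have hQA : Tor (symb ![Q, A] : MilnorK 2 ℚ) := ih _ _ hq ha (by omega) (by omega)
            have hQB : Tor (symb ![Q, B] : MilnorK 2 ℚ) := ih _ _ hq hb (by omega) (by omega)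
            have hAA : Tor (symb ![A, A] : MilnorK 2 ℚ) := ih _ _ ha ha (by omega) (by omega)
            have hAB : Tor (symb ![A, B] : MilnorK 2 ℚ) := ih _ _ ha hb (by omega) (by omega)
            have hBA : Tor (symb ![B, A] : MilnorK 2 ℚ) := ih _ _ hb ha (by omega) (by omega)
            have hBB : Tor (symb ![B, B] : MilnorK 2 ℚ) := ih _ _ hb hb (by omega) (by omega)
            simp only [symb_mul_left, symb_mul_right, symb_inv_left, symb_inv_right] at hst
            have e : (symb ![P, A] + symb ![P, B] - symb ![P, R] : MilnorK 2 ℚ) =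
                symb ![Q, R] - symb ![Q, A] - symb ![Q, B] - symb ![A, R] - symb ![B, R] +
                symb ![A, A] + symb ![A, B] + symb ![B, A] + symb ![B, B] := by
              rw [← sub_eq_zero, ← neg_eq_zero, ← hst]
              abel
            rw [e]
            exact (((((((hQR.sub hQA).sub hQB).sub hAR).sub hBR).add hAA).add hAB).add hBA).add hBB
        intro a ha han
        have hap : a < p := by omega
        have hcop : ∀ k : ℕ, 0 < a ^ k % p := by
          intro k
          rw [Nat.pos_iff_ne_zero]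
          intro h
          have h1 : p ∣ a ^ k := Nat.dvd_of_mod_eq_zero h
          have h2 := hp.dvd_of_dvd_pow h1
          exact absurd (Nat.le_of_dvd ha h2) (by omega)
        have hpow : ∀ k : ℕ, Tor (k • symb ![un p hp0, un a ha] -
            symb ![un p hp0, un (a ^ k % p) (hcop k)] : MilnorK 2 ℚ) := by
          intro k
          induction k with
          | zero =>
            have e : un (a ^ 0 % p) (hcop 0) = 1 := by
              ext
              simp [un, Nat.mod_eq_of_lt hp.one_lt]
            rw [e, symb_one_right, sub_zero, zero_nsmul]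
            exact Tor.zero
          | succ k ihk =>
            have h1 : (a ^ k % p * a) % p = a ^ (k + 1) % p := by
              rw [pow_succ, Nat.mod_mul_mod]
            have h2 := hmul (a ^ k % p) a (hcop k) ha (Nat.mod_lt _ hp0) hap
              (by rw [h1]; exact hcop (k + 1))
            have e : un ((a ^ k % p * a) % p) (by rw [h1]; exact hcop (k + 1)) =
                un (a ^ (k + 1) % p) (hcop (k + 1)) := by
              ext
              simp only [un, Units.val_mk0]
              rw [h1]
            rw [e] at h2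
            have h3 := ihk.add h2
            have e2 : (k • symb ![un p hp0, un a ha] -
                symb ![un p hp0, un (a ^ k % p) (hcop k)] +
                (symb ![un p hp0, un (a ^ k % p) (hcop k)] + symb ![un p hp0, un a ha] -
                symb ![un p hp0, un (a ^ (k + 1) % p) (hcop (k + 1))]) : MilnorK 2 ℚ) =
                (k + 1) • symb ![un p hp0, un a ha] -
                symb ![un p hp0, un (a ^ (k + 1) % p) (hcop (k + 1))] := by
              rw [add_smul, one_smul]
              abel
            rw [e2] at h3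
            exact h3
        have h1 := hpow (p - 1)
        have hone : a ^ (p - 1) % p = 1 := by
          have hc : Nat.Coprime a p := ((Nat.Prime.coprime_iff_not_dvd hp).2
            fun h => absurd (Nat.le_of_dvd ha h) (by omega)).symm
          have h2 := Nat.ModEq.pow_totient hc
          rw [Nat.totient_prime hp] at h2
          have h3 : a ^ (p - 1) % p = 1 % p := h2
          rw [h3, Nat.mod_eq_of_lt hp.one_lt]
        have e : un (a ^ (p - 1) % p) (hcop (p - 1)) = 1 := by
          ext
          simp [un, hone]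
        rw [e, symb_one_right, sub_zero] at h1
        have hp2 := hp.two_le
        exact Tor.of_nsmul (by omega) h1
      · -- the composite case
        intro b hb hbn
        rcases Nat.eq_or_lt_of_le (Nat.succ_le_of_lt n.succ_pos) with h1 | h1
        · have h2 : n = 0 := by omega
          omega
        · obtain ⟨m, hm1, hm2, hm3⟩ := Nat.exists_dvd_of_not_prime h1 hp
          obtain ⟨k, hk⟩ := hm1
          have hk : n + 1 = m * k := hk
          have hm3 : m ≠ n + 1 := hm3
          have hm0 : 0 < m := by
            rcases Nat.eq_zero_or_pos m with h0 | h0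
            · rw [h0, zero_mul] at hk
              omega
            · exact h0
          have hk0 : 0 < k := by
            rcases Nat.eq_zero_or_pos k with h0 | h0
            · rw [h0, mul_zero] at hk
              omega
            · exact h0
          have hmn : m ≤ n := by
            have : m ≤ n + 1 := by
              rw [hk]
              exact Nat.le_mul_of_pos_right _ hk0
            omega
          have hkn : k ≤ n := by
            have h2 : 2 ≤ m := by omega
            have : 2 * k ≤ n + 1 := by
              rw [hk]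
              exact Nat.mul_le_mul_right _ h2
            omega
          have e : un (n + 1) n.succ_pos = un m hm0 * un k hk0 := by
            rw [← un_mul hm0 hk0]
            ext
            simp only [un, Units.val_mk0]
            rw [hk]
          rw [e, symb_mul_left]
          exact (ih m b hm0 hb hmn hbn).add (ih k b hk0 hb hkn hbn)
    intro a b ha hb h1 h2
    rcases Nat.lt_or_ge n a with h3 | h3
    · have h4 : a = n + 1 := by omega
      subst h4
      rcases Nat.lt_or_ge n b with h5 | h5
      · have h6 : b = n + 1 := by omega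
        subst h6
        exact ⟨2, two_pos, symb_self _⟩
      · exact key b hb h5
    · rcases Nat.lt_or_ge n b with h5 | h5
      · have h6 : b = n + 1 := by omega
        subst h6
        rw [symb_skew]
        exact (key a ha h3).neg
      · exact ih a b ha hb h3 h5

/-- Every unit of `ℚ` is `± a / b`. -/
theorem exists_un (q : ℚˣ) : ∃ (a b : ℕ) (ha : 0 < a) (hb : 0 < b),
    q = un a ha * (un b hb)⁻¹ ∨ q = -1 * (un a ha * (un b hb)⁻¹) := by
  have hq : (q : ℚ) ≠ 0 := q.ne_zero
  have hnum : (q : ℚ).num ≠ 0 := Rat.num_ne_zero.2 hq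
  refine ⟨(q : ℚ).num.natAbs, (q : ℚ).den, Int.natAbs_pos.2 hnum, (q : ℚ).den_pos, ?_⟩
  rcases Int.natAbs_eq (q : ℚ).num with h | h
  · left
    ext
    simp only [un, Units.val_mul, Units.val_inv_eq_inv_val, Units.val_mk0]
    have h1 : (((q : ℚ).num.natAbs : ℕ) : ℚ) = ((q : ℚ).num : ℚ) := by
      have h2 : (((q : ℚ).num.natAbs : ℤ) : ℚ) = (((q : ℚ).num : ℤ) : ℚ) :=
        congrArg (fun z : ℤ => (z : ℚ)) h.symm
      rwa [Int.cast_natCast] at h2
    rw [h1, ← div_eq_mul_inv, Rat.num_div_den]
  · right
    ext
    simp only [un, Units.val_mul, Units.val_inv_eq_inv_val, Units.val_mk0, Units.val_neg,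
      Units.val_one]
    have h1 : (((q : ℚ).num.natAbs : ℕ) : ℚ) = -((q : ℚ).num : ℚ) := by
      have h2 : (((q : ℚ).num.natAbs : ℤ) : ℚ) = ((-(q : ℚ).num : ℤ) : ℚ) :=
        congrArg (fun z : ℤ => (z : ℚ)) (by omega)
      rwa [Int.cast_natCast, Int.cast_neg] at h2
    rw [h1, neg_one_mul, neg_mul, neg_neg, ← div_eq_mul_inv, Rat.num_div_den]

/-- The Milnor K-group `K_2(ℚ)` is torsion: the symbols. -/
theorem torsion_rat (a b : ℚˣ) : Tor (symb ![a, b] : MilnorK 2 ℚ) := by
  have hneg : ∀ c : ℚˣ, Tor (symb ![c, -1] : MilnorK 2 ℚ) := fun c => ⟨2, two_pos, symb_neg_one c⟩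
  have hneg' : ∀ c : ℚˣ, Tor (symb ![-1, c] : MilnorK 2 ℚ) := fun c => by
    rw [symb_skew]
    exact (hneg c).neg
  have hun : ∀ (m n : ℕ) (hm : 0 < m) (hn : 0 < n), Tor (symb ![un m hm, un n hn] : MilnorK 2 ℚ) :=
    fun m n hm hn => tor_un (max m n) m n hm hn (le_max_left _ _) (le_max_right _ _)
  have h1 : ∀ (m : ℕ) (hm : 0 < m) (c : ℚˣ), Tor (symb ![un m hm, c] : MilnorK 2 ℚ) := by
    intro m hm c
    obtain ⟨k, l, hk, hl, h | h⟩ := exists_un c
    · rw [h, symb_mul_right, symb_inv_right]
      exact (hun _ _ _ _).add (hun _ _ _ _).neg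
    · rw [h, symb_mul_right, symb_mul_right, symb_inv_right]
      exact (hneg _).add ((hun _ _ _ _).add (hun _ _ _ _).neg)
  obtain ⟨k, l, hk, hl, h | h⟩ := exists_un a
  · rw [h, symb_mul_left, symb_inv_left]
    exact (h1 _ _ _).add (h1 _ _ _).neg
  · rw [h, symb_mul_left, symb_mul_left, symb_inv_left]
    exact (hneg' _).add ((h1 _ _ _).add (h1 _ _ _).neg)

end P4a177uH
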