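import Pool.Agent.Lib.P4a177u.Defs
import Pool.Agent.Lib.P4a177b.Tame

/-!
# The tame symbol on the Milnor K-group of a field

The tame symbol `tm v` at a discrete valuation, as a homomorphism on the second Milnor `K`-group; it is
torsion on unramified elements, vanishes on symbols of units, and for a constant `c` of `ℚ` and a
function `l` which is not a unit at `v` it is torsion on `{c, l}` only if `c = ± 1`.
-/

set_option autoImplicit false

namespace P4a177u

open P4a177h

noncomputable section

/-- The tame symbol. -/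
def tm {K : Type*} [Field K] (v : Valuation K (WithZero (Multiplicative ℤ))) :
    MilnorK 2 K →+ Additive (IsLocalRing.ResidueField v.valuationSubring)ˣ :=
  lift (fun a => P4a177b.tameFun v (a 0) (a 1))
    (fun a i b c => by
      fin_cases i
      · have h0 : ∀ x : Kˣ, Function.update a (0 : Fin 2) x 0 = x := fun x =>
          Function.update_self _ _ _
        have h1 : ∀ x : Kˣ, Function.update a (0 : Fin 2) x 1 = a 1 := fun x =>
          Function.update_of_ne (by decide) _ _
        show P4a177b.tameFun v (Function.update a (0 : Fin 2) (b * c) 0)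
            (Function.update a (0 : Fin 2) (b * c) 1) =
          P4a177b.tameFun v (Function.update a (0 : Fin 2) b 0)
            (Function.update a (0 : Fin 2) b 1) +
          P4a177b.tameFun v (Function.update a (0 : Fin 2) c 0)
            (Function.update a (0 : Fin 2) c 1)
        rw [h0, h0, h0, h1, h1, h1, P4a177b.tameFun_mul_left]
      · have h0 : ∀ x : Kˣ, Function.update a (1 : Fin 2) x 1 = x := fun x =>
          Function.update_self _ _ _
        have h1 : ∀ x : Kˣ, Function.update a (1 : Fin 2) x 0 = a 0 := fun x =>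
          Function.update_of_ne (by decide) _ _
        show P4a177b.tameFun v (Function.update a (1 : Fin 2) (b * c) 0)
            (Function.update a (1 : Fin 2) (b * c) 1) =
          P4a177b.tameFun v (Function.update a (1 : Fin 2) b 0)
            (Function.update a (1 : Fin 2) b 1) +
          P4a177b.tameFun v (Function.update a (1 : Fin 2) c 0)
            (Function.update a (1 : Fin 2) c 1)
        rw [h0, h0, h0, h1, h1, h1, P4a177b.tameFun_mul_right])
    (fun a i j hij h => by
      have hi : i = 0 := by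
        have := j.isLt
        exact Fin.ext (by show (i : ℕ) = 0; omega)
      have hj : j = 1 := by
        subst hi
        exact Fin.ext (by show (j : ℕ) = 1; rw [← hij]; rfl)
      subst hi hj
      exact P4a177b.tameFun_steinberg v (a 0) (a 1) h)

theorem tm_symb {K : Type*} [Field K] (v : Valuation K (WithZero (Multiplicative ℤ)))
    (a : Fin 2 → Kˣ) : tm v (symb a) = P4a177b.tameFun v (a 0) (a 1) :=
  lift_symb _ _ _ a

theorem tm_unram {K : Type*} [Field K] (v : Valuation K (WithZero (Multiplicative ℤ)))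
    {ξ : MilnorK 2 K} (h : Unramified v ξ) : IsOfFinAddOrder (tm v ξ) := by
  obtain ⟨m, hm, hx⟩ := h
  rw [isOfFinAddOrder_iff_nsmul_eq_zero]
  refine ⟨m, hm, ?_⟩
  rw [← map_nsmul]
  have hle : AddSubgroup.closure
      {x : MilnorK 2 K | ∃ a : Fin 2 → Kˣ, (∀ i, v (a i : K) = 1) ∧ x = symb a} ≤ (tm v).ker := by
    rw [AddSubgroup.closure_le]
    rintro x ⟨a, ha, rfl⟩
    show tm v (symb a) = 0
    rw [tm_symb]
    exact P4a177b.tameFun_of_units v _ _ ((P4a177b.ordv_eq_zero_iff v _).2 (ha 0))
      ((P4a177b.ordv_eq_zero_iff v _).2 (ha 1))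
  exact hle hx

/-- the tame symbol of a symbol of units at `v` -/
theorem tm_units {K : Type*} [Field K] (v : Valuation K (WithZero (Multiplicative ℤ)))
    (a c : Kˣ) (ha : v (a : K) = 1) (hc : v (c : K) = 1) : tm v (symb ![a, c]) = 0 := by
  rw [tm_symb]
  exact P4a177b.tameFun_of_units v _ _ ((P4a177b.ordv_eq_zero_iff v _).2 ha)
    ((P4a177b.ordv_eq_zero_iff v _).2 hc)

namespace TameUAux

/-- The converse of `P4a177b.resUnit_eq_one`. -/
theorem lt_one_of_resUnit {K : Type*} [Field K]
    (v : Valuation K (WithZero (Multiplicative ℤ))) (a : Kˣ) (ha : P4a177b.ordv v a = 0)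
    (h : P4a177b.resUnit v a ha = 1) : v ((a : K) - 1) < 1 := by
  unfold P4a177b.resUnit at h
  have hk := v.valuationSubring.ker_unitGroupToResidueFieldUnits
  rw [← MonoidHom.mem_ker, hk, Subgroup.mem_comap] at h
  change a ∈ v.valuationSubring.principalUnitGroup at h
  rw [ValuationSubring.mem_principalUnitGroup_iff] at h
  exact (v.isEquiv_valuation_valuationSubring.lt_one_iff_lt_one).2 h

end TameUAux

theorem tm_const {K : Type*} [Field K] (v : Valuation K (WithZero (Multiplicative ℤ)))
    (φ : ℚ →+* K) (hφ : ∀ c : ℚˣ, v (φ (c : ℚ)) = 1) (c : ℚˣ) (l : Kˣ) (hl : v (l : K) ≠ 1)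
    (h : IsOfFinAddOrder (tm v (symb ![Units.map (φ : ℚ →* K) c, l]))) : c = 1 ∨ c = -1 := by
  have hw : P4a177b.ordv v (Units.map (φ : ℚ →* K) c) = 0 := by
    rw [P4a177b.ordv_eq_zero_iff]
    exact hφ c
  have hl0 : P4a177b.ordv v l ≠ 0 := fun h0 => hl ((P4a177b.ordv_eq_zero_iff v l).1 h0)
  have e : tm v (symb ![Units.map (φ : ℚ →* K) c, l]) =
      P4a177b.ordv v l • Additive.ofMul (P4a177b.resUnit v (Units.map (φ : ℚ →* K) c) hw) := by
    rw [tm_symb]
    exact P4a177b.tameFun_unit_left v _ _ hw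
  rw [e, isOfFinAddOrder_iff_nsmul_eq_zero] at h
  obtain ⟨n, hn, h⟩ := h
  -- `m = n * ordv v l` kills the residue class
  have h1 : (P4a177b.resUnit v (Units.map (φ : ℚ →* K) c) hw) ^ ((n : ℤ) * P4a177b.ordv v l) = 1 := by
    have h2 : ((n : ℤ) * P4a177b.ordv v l) •
        Additive.ofMul (P4a177b.resUnit v (Units.map (φ : ℚ →* K) c) hw) = 0 := by
      rw [mul_smul, natCast_zsmul]
      exact h
    rw [← ofMul_zpow] at h2
    exact ofMul_eq_zero.1 h2
  have hm : ((n : ℤ) * P4a177b.ordv v l) ≠ 0 := mul_ne_zero (by exact_mod_cast hn.ne') hl0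
  obtain ⟨k, hk, hk1⟩ : ∃ k : ℕ, 0 < k ∧
      (P4a177b.resUnit v (Units.map (φ : ℚ →* K) c) hw) ^ k = 1 := by
    refine ⟨((n : ℤ) * P4a177b.ordv v l).natAbs, Int.natAbs_pos.2 hm, ?_⟩
    rcases Int.natAbs_eq ((n : ℤ) * P4a177b.ordv v l) with h3 | h3
    · rw [h3, zpow_natCast] at h1
      exact h1
    · rw [h3, zpow_neg, zpow_natCast, inv_eq_one] at h1
      exact h1
  have hck : P4a177b.ordv v (Units.map (φ : ℚ →* K) (c ^ k)) = 0 := by
    rw [P4a177b.ordv_eq_zero_iff]
    exact hφ (c ^ k)
  have hres : P4a177b.resUnit v (Units.map (φ : ℚ →* K) (c ^ k)) hck = 1 := by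
    have h0 : P4a177b.ordv v ((Units.map (φ : ℚ →* K) c) ^ (k : ℤ)) = 0 := by
      rw [P4a177b.ordv_zpow, hw, mul_zero]
    rw [P4a177b.resUnit_congr v (b := (Units.map (φ : ℚ →* K) c) ^ (k : ℤ))
      (by rw [map_pow, zpow_natCast]) hck h0, P4a177b.resUnit_zpow v _ hw, zpow_natCast, hk1]
  have hlt := TameUAux.lt_one_of_resUnit v _ hck hres
  have hval : ((Units.map (φ : ℚ →* K) (c ^ k) : Kˣ) : K) - 1 = φ ((c : ℚ) ^ k - 1) := by
    rw [map_sub, map_one]
    congr 1
  have hz : (c : ℚ) ^ k - 1 = 0 := by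
    by_contra hne
    have h4 := hφ (Units.mk0 _ hne)
    rw [Units.val_mk0] at h4
    rw [hval, h4] at hlt
    exact lt_irrefl _ hlt
  have hc1 : (c : ℚ) ^ k = 1 := sub_eq_zero.1 hz
  have habs : |(c : ℚ)| = 1 := by
    have h5 : |(c : ℚ)| ^ k = 1 := by rw [← abs_pow, hc1, abs_one]
    exact (pow_eq_one_iff_of_nonneg (abs_nonneg _) hk.ne').1 h5
  rcases (abs_eq (by norm_num)).1 habs with h6 | h6
  · left
    exact Units.ext h6
  · right
    exact Units.ext h6

end

end P4a177u
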