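import Pool.Agent.Lib.P4a177u.ValC
import Pool.Agent.Lib.P4a177u.TameU

/-!
# The tame symbols at the cusps determine the constants up to sign

PROOF. Write `ψ = algebraMap (CoordRing b N) K`, `ζ` for the element; `map ψ ζ` is the sum of the symbols
`symb ![Units.map ψ (cst c), Units.map ψ (uF)]` and `symb ![Units.map ψ (cst (d i)), Units.map ψ (uL i)]`
(`map_add`, `map_sum`, `P4a177h.map_symb`). For the valuation `v` of `val_zero i`: all these symbols except the one with
index `i` are symbols of units, so `tm v` vanishes on them (`tm_units`), and `h v` says that `tm v` of the one with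
index `i` has finite order: `tm_const` with `φ = ψ.comp (algebraMap ℚ (CoordRing b N))` gives `d i = 1 ∨ d i = -1`.
Then take the valuation of `val_inf`: for `d i = ± 1` the element `tm v (symb ![± 1, u])` has finite order, and elements
of finite order form a subgroup, so `tm v` of the first symbol has finite order and `tm_const` gives `c = 1 ∨ c = -1`.
-/

set_option autoImplicit false

namespace P4a177u

open P4a177h P4a177d

variable {g : ℕ} (b : Fin (g + 1) → ℤ) (N : ℤ) (K : Type) [Field K] [Algebra (CoordRing b N) K]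
  [IsFractionRing (CoordRing b N) K]

namespace KillAux

theorem map_pair {R S : Type*} [CommRing R] [CommRing S] (ψ : R →+* S) (a u : Rˣ) :
    map ψ (symb ![a, u]) = symb ![Units.map (ψ : R →* S) a, Units.map (ψ : R →* S) u] := by
  rw [map_symb]
  congr 1
  funext i
  fin_cases i <;> rfl

theorem tm_one {K : Type*} [Field K] (v : Valuation K (WithZero (Multiplicative ℤ))) (u : Kˣ) :
    P4a177b.tameFun v 1 u = 0 := by
  have h := P4a177b.tameFun_mul_left v 1 1 u
  rw [mul_one] at h
  exact left_eq_add.1 h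

theorem tm_sign {K : Type*} [Field K] (v : Valuation K (WithZero (Multiplicative ℤ))) (c u : Kˣ)
    (hc : c = 1 ∨ c = -1) : IsOfFinAddOrder (tm v (symb ![c, u])) := by
  rw [isOfFinAddOrder_iff_nsmul_eq_zero]
  refine ⟨2, two_pos, ?_⟩
  rw [tm_symb]
  show 2 • P4a177b.tameFun v c u = 0
  rw [two_nsmul, ← P4a177b.tameFun_mul_left]
  have h : c * c = 1 := by
    rcases hc with h | h
    · rw [h, mul_one]
    · rw [h, neg_mul_neg, mul_one]
  rw [h, tm_one]

theorem sign_map {S : Type*} [Field S] (φ : ℚ →+* S) {c : ℚˣ} (hc : c = 1 ∨ c = -1) :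
    Units.map (φ : ℚ →* S) c = 1 ∨ Units.map (φ : ℚ →* S) c = -1 := by
  rcases hc with h | h
  · left
    rw [h, map_one]
  · right
    rw [h]
    refine Units.ext ?_
    rw [Units.coe_map, Units.val_neg, Units.val_neg, Units.val_one, Units.val_one]
    exact (map_neg φ 1).trans (by rw [map_one])

end KillAux

open KillAux

theorem kill (hb : Function.Injective b) (hN : N ≠ 0) (c : ℚˣ) (d : Fin (g + 1) → ℚˣ)
    (h : ∀ v : Valuation K (WithZero (Multiplicative ℤ)),
      (∀ c : ℚˣ, v (algebraMap (CoordRing b N) K (cst b N c)) = 1) →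
      IsOfFinAddOrder (tm v (map (algebraMap (CoordRing b N) K)
        (symb ![cst b N c, uF b N] + ∑ i, symb ![cst b N (d i), uL b N i])))) :
    (c = 1 ∨ c = -1) ∧ ∀ i, d i = 1 ∨ d i = -1 := by
  classical
  set ψ : CoordRing b N →+* K := algebraMap (CoordRing b N) K with hψ
  set φ : ℚ →+* K := ψ.comp (algebraMap ℚ (CoordRing b N)) with hφ
  have hcst : ∀ x : ℚˣ, Units.map (ψ : CoordRing b N →* K) (cst b N x) =
      Units.map (φ : ℚ →* K) x := fun x => Units.ext rfl
  set F : Kˣ := Units.map (ψ : CoordRing b N →* K) (uF b N) with hF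
  set L : Fin (g + 1) → Kˣ := fun i => Units.map (ψ : CoordRing b N →* K) (uL b N i) with hL
  have key : ∀ v : Valuation K (WithZero (Multiplicative ℤ)),
      (∀ c : ℚˣ, v (algebraMap (CoordRing b N) K (cst b N c)) = 1) →
      IsOfFinAddOrder (tm v (symb ![Units.map (φ : ℚ →* K) c, F]) +
        ∑ i, tm v (symb ![Units.map (φ : ℚ →* K) (d i), L i])) := by
    intro v hvc
    have h1 := h v hvc
    rw [map_add, map_sum, map_add, map_sum, map_pair, hcst] at h1
    have h2 : ∀ i, tm v (map ψ (symb ![cst b N (d i), uL b N i])) =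
        tm v (symb ![Units.map (φ : ℚ →* K) (d i), L i]) := by
      intro i
      rw [map_pair, hcst]
    rw [Finset.sum_congr rfl fun i _ => h2 i] at h1
    exact h1
  have hd : ∀ i, d i = 1 ∨ d i = -1 := by
    intro i
    obtain ⟨v, h1, h2, h3, h4⟩ := val_zero b N K hb hN i
    have h5 := key v h1
    have hv : ∀ x : ℚˣ, v (φ (x : ℚ)) = 1 := fun x => h1 x
    rw [tm_units v (Units.map (φ : ℚ →* K) c) F (hv c) h2, zero_add,
      Finset.sum_eq_single i (fun j _ hj => tm_units v _ _ (hv (d j)) (h4 j hj))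
        (fun hi => absurd (Finset.mem_univ i) hi)] at h5
    exact tm_const v φ hv (d i) (L i) h3 h5
  refine ⟨?_, hd⟩
  obtain ⟨v, h1, h2⟩ := val_inf b N K hN
  have hv : ∀ x : ℚˣ, v (φ (x : ℚ)) = 1 := fun x => h1 x
  have h3 := key v h1
  have h4 : ∑ i, tm v (symb ![Units.map (φ : ℚ →* K) (d i), L i]) ∈
      AddCommGroup.torsion (Additive (IsLocalRing.ResidueField v.valuationSubring)ˣ) :=
    AddSubgroup.sum_mem _ fun i _ => tm_sign v _ _ (sign_map φ (hd i))
  have h5 : tm v (symb ![Units.map (φ : ℚ →* K) c, F]) +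
      ∑ i, tm v (symb ![Units.map (φ : ℚ →* K) (d i), L i]) ∈
      AddCommGroup.torsion (Additive (IsLocalRing.ResidueField v.valuationSubring)ˣ) := h3
  have h6 := AddSubgroup.sub_mem _ h5 h4
  rw [add_sub_cancel_right] at h6
  exact tm_const v φ hv c F h2 h6

end P4a177u
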