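import Pool.Agent.Lib.P4a177u.Defs
import Pool.Agent.Lib.P4a177d.Reg1D
import Pool.Agent.Lib.P4a177h.Unram

/-!
# MODULE P4a177u.Quo: the universal symbol, and the two properties of the elements of `Tor R`

PROOFS. `uni`: bilinearity from `P4a177h.symb_mul` (with `Function.update`; the entries `![a, b]` are
`Function.update`s of each other: `Function.update ![a * b, c] 0 x = ![x, c]` by `funext` and `Fin.cases`/
`fin_cases`, see `P4a177d.Reg1DAux.mul_left`, `mul_right` in `Lib/P4a177d/Reg1D.lean` for the same trick), the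
Steinberg relation from `P4a177h.symb_steinberg`, `neg`: `symb ![a, -a] ∈ negSub ≤ Tor`
(`QuotientAddGroup.eq_zero_iff`), torsion free: if `k • mk x = 0` then `k • x ∈ Tor R`, so `l • k • x ∈ negSub`.
`reg_tor`: `k * reg γ x = 0`, because `reg γ` is zero on `negSub R`: on a generator
`reg γ (symb ![u, -u]) = regFun γ ![u, -u] = regFun γ ![u, u] = 0` (`P4a177h.reg_symb`,
`P4a177d.Reg1DAux.neg_right`, `P4a177d.Reg1DAux.regFun_self`; `AddSubgroup.closure_induction` or
`AddSubgroup.closure_le` with the kernel). `map_tor`: the same with `P4a177h.map`, `map_symb` and `two_neg`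
(`Lib/P4a177h/Unram.lean`: `symb ![x, -x] = two ![x, -x] 0 1 x (-x) = 0` in the K-group of a field).
-/

set_option autoImplicit false

namespace P4a177u

open P4a177h P4a177d

noncomputable section

namespace QuoAux

theorem upd_zero {α : Type*} (x y z : α) : Function.update ![x, y] 0 z = ![z, y] := by
  funext i
  fin_cases i <;> rfl

theorem upd_one {α : Type*} (x y z : α) : Function.update ![x, y] 1 z = ![x, z] := by
  funext i
  fin_cases i <;> rfl

theorem symb_mul_left {R : Type*} [CommRing R] (a b c : Rˣ) :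
    (symb ![a * b, c] : MilnorK 2 R) = symb ![a, c] + symb ![b, c] := by
  have h := symb_mul ![1, c] 0 a b
  rw [upd_zero, upd_zero, upd_zero] at h
  exact h

theorem symb_mul_right {R : Type*} [CommRing R] (a b c : Rˣ) :
    (symb ![a, b * c] : MilnorK 2 R) = symb ![a, b] + symb ![a, c] := by
  have h := symb_mul ![a, 1] 1 b c
  rw [upd_one, upd_one, upd_one] at h
  exact h

theorem negSub_le_tor (R : Type*) [CommRing R] : negSub R ≤ Tor R := fun x hx =>
  ⟨1, one_pos, by rw [one_nsmul]; exact hx⟩

end QuoAux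

open QuoAux

/-- The symbols modulo torsion. -/
def uni (R : Type*) [CommRing R] : Sy R (MilnorK 2 R ⧸ Tor R) where
  B u v := QuotientAddGroup.mk (symb ![u, v])
  mul_left a b c := by
    rw [symb_mul_left]
    rfl
  mul_right a b c := by
    rw [symb_mul_right]
    rfl
  neg a := by
    rw [QuotientAddGroup.eq_zero_iff]
    exact negSub_le_tor R (AddSubgroup.subset_closure ⟨a, rfl⟩)
  st a b h := by
    have h1 : (symb ![a, b] : MilnorK 2 R) = 0 := symb_steinberg ![a, b] 0 1 rfl h
    rw [h1]
    rfl
  tf k x hk hx := by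
    induction x using QuotientAddGroup.induction_on with
    | H x =>
      have h1 : (QuotientAddGroup.mk (k • x) : MilnorK 2 R ⧸ Tor R) = 0 := hx
      rw [QuotientAddGroup.eq_zero_iff] at h1 ⊢
      obtain ⟨l, hl, h2⟩ := h1
      refine ⟨k * l, Nat.mul_pos hk hl, ?_⟩
      rw [mul_nsmul]
      exact h2

theorem uni_B {R : Type*} [CommRing R] (u v : Rˣ) :
    (uni R).B u v = QuotientAddGroup.mk (symb ![u, v]) := rfl

theorem reg_tor {R : Type} [CommRing R] (γ : Torus 1 R) {x : MilnorK 2 R} (hx : x ∈ Tor R) :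
    reg γ x = 0 := by
  obtain ⟨k, hk, h⟩ := hx
  have h1 : negSub R ≤ (reg γ).ker := by
    unfold negSub
    rw [AddSubgroup.closure_le]
    rintro y ⟨u, rfl⟩
    show reg γ (symb ![u, -u]) = 0
    rw [reg_symb, Reg1DAux.neg_right, regFun_self]
  have h2 : reg γ (k • x) = 0 := h1 h
  rw [map_nsmul, nsmul_eq_mul] at h2
  have hk' : (k : ℝ) ≠ 0 := by exact_mod_cast hk.ne'
  exact (mul_eq_zero.1 h2).resolve_left hk'

theorem map_tor {R : Type*} [CommRing R] {K : Type*} [Field K] (φ : R →+* K) {x : MilnorK 2 R}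
    (hx : x ∈ Tor R) : ∃ k : ℕ, 0 < k ∧ k • map φ x = 0 := by
  obtain ⟨k, hk, h⟩ := hx
  have h1 : negSub R ≤ (map φ : MilnorK 2 R →+ MilnorK 2 K).ker := by
    unfold negSub
    rw [AddSubgroup.closure_le]
    rintro y ⟨u, rfl⟩
    show map φ (symb ![u, -u]) = 0
    rw [map_symb]
    have e : (fun i => Units.map (φ : R →* K) (![u, -u] i)) =
        ![Units.map (φ : R →* K) u, -Units.map (φ : R →* K) u] := by
      funext i
      fin_cases i
      · rfl
      · apply Units.ext
        show φ ((-u : Rˣ) : R) = ((-Units.map (φ : R →* K) u : Kˣ) : K)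
        rw [Units.val_neg, Units.val_neg, map_neg]
        rfl
    rw [e]
    have h2 := two_neg ![Units.map (φ : R →* K) u, -Units.map (φ : R →* K) u]
      (i := 0) (j := 1) rfl (Units.map (φ : R →* K) u)
    unfold two at h2
    rw [upd_zero, upd_one] at h2
    exact h2
  refine ⟨k, hk, ?_⟩
  have h2 : map φ (k • x) = 0 := h1 h
  rw [map_nsmul] at h2
  exact h2

end

end P4a177u
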