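import Pool.Agent.Lib.P4a177u.Pell
import Pool.Agent.Lib.P4a177d.TorD

/-!
# The units of the coordinate ring of the curve `N t (t - 1) ∏ (x - b_i) = 1`
-/

set_option autoImplicit false

namespace P4a177uH

open P4a177d Polynomial

variable {g : ℕ} (b : Fin (g + 1) → ℤ) (N : ℤ)

/-- The polynomial `P = N ∏ (X - b_i)` over `ℚ`. -/
noncomputable def PQ : ℚ[X] := C (N : ℚ) * ∏ i, (X - C (b i : ℚ))

/-- The homomorphism `ℚ[X] → O(C)`. -/
noncomputable def phi : ℚ[X] →+* CoordRing b N := (aeval (cX b N) : ℚ[X] →ₐ[ℚ] CoordRing b N)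

/-- The function `w = P (2 t - 1)`. -/
noncomputable def wR : CoordRing b N := phi b N (PQ b N) * (2 * cT b N - 1)

variable {b N}

theorem phi_X : phi b N X = cX b N := by
  unfold phi
  simp

theorem phi_C (a : ℚ) : phi b N (C a) = algebraMap ℚ (CoordRing b N) a := by
  unfold phi
  simp

theorem phi_PQ : phi b N (PQ b N) = (N : CoordRing b N) * ∏ i, (cX b N - (b i : CoordRing b N)) := by
  unfold PQ
  rw [map_mul, map_prod, phi_C]
  have h : ∀ i, phi b N (X - C ((b i : ℤ) : ℚ)) = cX b N - (b i : CoordRing b N) := by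
    intro i
    rw [map_sub, phi_X, phi_C, map_intCast]
  rw [Finset.prod_congr rfl fun i _ => h i, map_intCast]

theorem phi_eqn : phi b N (PQ b N) * (cT b N * (cT b N - 1)) = 1 := by
  rw [phi_PQ]
  linear_combination eqn_cX b N

theorem wR_sq : wR b N ^ 2 = phi b N (PQ b N * (PQ b N + 4)) := by
  unfold wR
  rw [map_mul, map_add, map_ofNat]
  linear_combination (4 * phi b N (PQ b N)) * phi_eqn (b := b) (N := N)

theorem two_uF : 2 * (uF b N : CoordRing b N) = phi b N (PQ b N + 2) - wR b N := by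
  have h1 : (uF b N : CoordRing b N) * cT b N = cT b N - 1 := by
    unfold uF
    rw [← uT_val, ← Units.val_mul, div_mul_cancel, uT1_val, uT_val]
  have h2 : 2 * (uF b N : CoordRing b N) * cT b N =
      (phi b N (PQ b N + 2) - wR b N) * cT b N := by
    rw [mul_assoc, h1, map_add, map_ofNat]
    unfold wR
    linear_combination 2 * phi_eqn (b := b) (N := N)
  exact (isUnit_cT b N).mul_right_cancel h2

theorem half_mul_two : phi b N (C (1 / 2 : ℚ)) * 2 = 1 := by
  have : (2 : CoordRing b N) = phi b N (C (2 : ℚ)) := by rw [map_ofNat, map_ofNat]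
  rw [this, ← map_mul, ← C_mul]
  norm_num

theorem two_PT : phi b N (PQ b N) * cT b N =
    phi b N (C (1 / 2 : ℚ)) * (phi b N (PQ b N) + wR b N) := by
  have h := half_mul_two (b := b) (N := N)
  unfold wR
  linear_combination (-(phi b N (PQ b N) * cT b N)) * h

/-- Every function is `(α + β w) / P^k`. -/
theorem exists_repr (r : CoordRing b N) : ∃ (k : ℕ) (α β : ℚ[X]),
    phi b N (PQ b N) ^ k * r = phi b N α + phi b N β * wR b N := by
  obtain ⟨f, rfl⟩ := Ideal.Quotient.mk_surjective r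
  induction f using MvPolynomial.induction_on with
  | C a =>
    refine ⟨0, C a, 0, ?_⟩
    rw [pow_zero, one_mul, map_zero, zero_mul, add_zero, phi_C]
    rfl
  | add p q hp hq =>
    obtain ⟨k, α, β, h1⟩ := hp
    obtain ⟨l, α', β', h2⟩ := hq
    refine ⟨k + l, PQ b N ^ l * α + PQ b N ^ k * α', PQ b N ^ l * β + PQ b N ^ k * β', ?_⟩
    simp only [map_add, map_mul, map_pow]
    rw [pow_add]
    linear_combination phi b N (PQ b N) ^ l * h1 + phi b N (PQ b N) ^ k * h2
  | mul_X p s hp =>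
    obtain ⟨k, α, β, h1⟩ := hp
    fin_cases s
    · refine ⟨k, α * X, β * X, ?_⟩
      rw [map_mul, map_mul, map_mul, phi_X]
      have : Ideal.Quotient.mk (Ideal.span {eqn b N}) (MvPolynomial.X 0) = cX b N := rfl
      show phi b N (PQ b N) ^ k * (_ * Ideal.Quotient.mk (Ideal.span {eqn b N}) (MvPolynomial.X 0)) = _
      rw [this]
      linear_combination cX b N * h1
    · refine ⟨k + 1, C (1 / 2 : ℚ) * (α * PQ b N + β * (PQ b N * (PQ b N + 4))),
        C (1 / 2 : ℚ) * (α + β * PQ b N), ?_⟩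
      have h2 := two_PT (b := b) (N := N)
      have h3 := wR_sq (b := b) (N := N)
      have : Ideal.Quotient.mk (Ideal.span {eqn b N}) (MvPolynomial.X 1) = cT b N := rfl
      rw [map_mul]
      show phi b N (PQ b N) ^ (k + 1) *
        (_ * Ideal.Quotient.mk (Ideal.span {eqn b N}) (MvPolynomial.X 1)) = _
      rw [this]
      rw [map_mul, map_add, map_ofNat] at h3
      simp only [map_mul, map_add, map_ofNat]
      rw [pow_succ]
      linear_combination (phi b N (PQ b N) * cT b N) * h1 +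
        (phi b N α + phi b N β * wR b N) * h2 + (phi b N (C (1 / 2 : ℚ)) * phi b N β) * h3

theorem PQ_ne_zero (hN : N ≠ 0) : PQ b N ≠ 0 := by
  unfold PQ
  refine mul_ne_zero (C_ne_zero.2 (by exact_mod_cast hN)) ?_
  exact Finset.prod_ne_zero_iff.2 fun i _ => X_sub_C_ne_zero _

theorem natDegree_PQ (hN : N ≠ 0) : (PQ b N).natDegree = g + 1 := by
  unfold PQ
  rw [natDegree_C_mul (by exact_mod_cast hN), natDegree_prod_of_monic _ _ fun i _ =>
    monic_X_sub_C _, Finset.sum_congr rfl fun i _ => natDegree_X_sub_C _]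
  simp

theorem PQ4_ne_zero (hN : N ≠ 0) : PQ b N + 4 ≠ 0 := by
  intro h
  have h1 : PQ b N = C (-4) := by
    rw [eq_neg_of_add_eq_zero_left h, C_neg, map_ofNat]
  have h2 := natDegree_PQ (b := b) hN
  rw [h1, natDegree_C] at h2
  omega

/-- The evaluation of `phi`. -/
theorem ev_phi {x t : ℂ} (h : (N : ℂ) * (t * (t - 1)) * ∏ i, (x - (b i : ℂ)) = 1) (α : ℚ[X]) :
    TorDAux.ev b N x t h (phi b N α) = aeval x α := by
  have h1 : (TorDAux.ev b N x t h).comp (phi b N) = (aeval x : ℚ[X] →ₐ[ℚ] ℂ).toRingHom := by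
    apply Polynomial.ringHom_ext
    · intro a
      show TorDAux.ev b N x t h (phi b N (C a)) = aeval x (C a)
      rw [phi_C, aeval_C]
      exact congrArg (fun f : ℚ →+* ℂ => f a) (Subsingleton.elim
        ((TorDAux.ev b N x t h).comp (algebraMap ℚ (CoordRing b N))) (algebraMap ℚ ℂ))
    · show TorDAux.ev b N x t h (phi b N X) = aeval x X
      rw [phi_X, aeval_X]
      show TorDAux.ev b N x t h (Ideal.Quotient.mk _ (MvPolynomial.X 0)) = x
      rw [TorDAux.ev_mk]
      simp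
  exact congrArg (fun f => f α) h1

theorem aeval_PQ (x : ℂ) : aeval x (PQ b N) = (N : ℂ) * ∏ i, (x - (b i : ℂ)) := by
  unfold PQ
  simp [map_prod]

/-- `1` and `w` are linearly independent over `ℚ[X]`. -/
theorem repr_zero (hN : N ≠ 0) {α β : ℚ[X]} (h : phi b N α + phi b N β * wR b N = 0) :
    α = 0 ∧ β = 0 := by
  have key : ∀ q : ℚ, (α * (PQ b N * (PQ b N + 4))).eval q = 0 ∧
      (β * (PQ b N * (PQ b N + 4))).eval q = 0 := by
    intro q
    by_cases h0 : (PQ b N).eval q = 0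
    · constructor <;> simp [h0]
    by_cases h4 : (PQ b N).eval q + 4 = 0
    · constructor <;> simp [h4]
    have hev : ∀ f : ℚ[X], aeval (q : ℂ) f = ((f.eval q : ℚ) : ℂ) := by
      intro f
      have := Polynomial.aeval_algebraMap_apply ℂ q f
      simpa using this
    obtain ⟨w, hw⟩ := IsAlgClosed.exists_pow_nat_eq
      (((PQ b N).eval q * ((PQ b N).eval q + 4) : ℚ) : ℂ) (n := 2) two_pos
    set p : ℂ := (((PQ b N).eval q : ℚ) : ℂ) with hp
    have hp0 : p ≠ 0 := by
      rw [hp]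
      exact_mod_cast h0
    have hw' : w ^ 2 = p * (p + 4) := by
      rw [hw, hp]
      push_cast
      ring
    have hw0 : w ≠ 0 := by
      intro h1
      rw [h1] at hw'
      have h5 : p + 4 ≠ 0 := by
        rw [hp]
        exact_mod_cast h4
      exact mul_ne_zero hp0 h5 (by rw [← hw']; ring)
    have hpt : ∀ v : ℂ, v ^ 2 = p * (p + 4) →
        (N : ℂ) * (((1 + v / p) / 2) * ((1 + v / p) / 2 - 1)) * ∏ i, ((q : ℂ) - (b i : ℂ)) = 1 := by
      intro v hv
      have h1 : (N : ℂ) * ∏ i, ((q : ℂ) - (b i : ℂ)) = p := by rw [← aeval_PQ, hev]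
      have h2 : (N : ℂ) * (((1 + v / p) / 2) * ((1 + v / p) / 2 - 1)) *
          ∏ i, ((q : ℂ) - (b i : ℂ)) =
          (((1 + v / p) / 2) * ((1 + v / p) / 2 - 1)) * ((N : ℂ) * ∏ i, ((q : ℂ) - (b i : ℂ))) := by
        ring
      rw [h2, h1]
      field_simp
      linear_combination hv
    have hval : ∀ v : ℂ, ∀ hv : v ^ 2 = p * (p + 4),
        TorDAux.ev b N q ((1 + v / p) / 2) (hpt v hv) (wR b N) = v := by
      intro v hv
      unfold wR
      rw [map_mul, ev_phi, hev, map_sub, map_mul, map_one, map_ofNat]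
      have h1 : TorDAux.ev b N q ((1 + v / p) / 2) (hpt v hv) (cT b N) = (1 + v / p) / 2 := by
        show TorDAux.ev b N q _ _ (Ideal.Quotient.mk _ (MvPolynomial.X 1)) = _
        rw [TorDAux.ev_mk]
        simp
      rw [h1, ← hp]
      field_simp
      ring
    have e1 := congrArg (TorDAux.ev b N q ((1 + w / p) / 2) (hpt w hw')) h
    rw [map_add, map_mul, ev_phi, ev_phi, hval w hw', map_zero, hev, hev] at e1
    have hw'' : (-w) ^ 2 = p * (p + 4) := by rw [neg_sq, hw']
    have e2 := congrArg (TorDAux.ev b N q ((1 + (-w) / p) / 2) (hpt (-w) hw'')) h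
    rw [map_add, map_mul, ev_phi, ev_phi, hval (-w) hw'', map_zero, hev, hev] at e2
    have e3 : ((α.eval q : ℚ) : ℂ) = 0 := by linear_combination (1 / 2 : ℂ) * e1 + (1 / 2 : ℂ) * e2
    have e4 : ((β.eval q : ℚ) : ℂ) * w = 0 := by
      linear_combination (1 / 2 : ℂ) * e1 - (1 / 2 : ℂ) * e2
    have e5 : α.eval q = 0 := by exact_mod_cast e3
    have e6 : β.eval q = 0 := by
      have := (mul_eq_zero.1 e4).resolve_right hw0
      exact_mod_cast this
    constructor <;> simp [e5, e6]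
  have hne : PQ b N * (PQ b N + 4) ≠ 0 := mul_ne_zero (PQ_ne_zero hN) (PQ4_ne_zero hN)
  constructor
  · have h1 : α * (PQ b N * (PQ b N + 4)) = 0 := Polynomial.funext fun q => by
      rw [(key q).1, eval_zero]
    exact (mul_eq_zero.1 h1).resolve_right hne
  · have h1 : β * (PQ b N * (PQ b N + 4)) = 0 := Polynomial.funext fun q => by
      rw [(key q).2, eval_zero]
    exact (mul_eq_zero.1 h1).resolve_right hne

/-- The divisors of a power of `P`. -/
theorem dvd_pow_PQ (hN : N ≠ 0) (M : ℕ) (n : ℕ) : ∀ ν : ℚ[X], ν.natDegree ≤ n →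
    ν ∣ PQ b N ^ M → ∃ (c : ℚ) (m : Fin (g + 1) → ℕ), c ≠ 0 ∧
      ν = C c * ∏ i, (X - C (b i : ℚ)) ^ m i := by
  induction n with
  | zero =>
    intro ν hν hd
    have h1 : ν = C (ν.coeff 0) := eq_C_of_natDegree_le_zero hν
    refine ⟨ν.coeff 0, fun _ => 0, ?_, by simpa using h1⟩
    intro h2
    rw [h2, C_0] at h1
    rw [h1, zero_dvd_iff] at hd
    exact pow_ne_zero M (PQ_ne_zero hN) hd
  | succ n ih =>
    intro ν hν hd
    have hν0 : ν ≠ 0 := by
      rintro rfl
      rw [zero_dvd_iff] at hd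
      exact pow_ne_zero M (PQ_ne_zero hN) hd
    by_cases hu : IsUnit ν
    · refine ih ν ?_ hd
      rw [natDegree_eq_zero_of_isUnit hu]
      exact Nat.zero_le _
    · obtain ⟨p, hp, hpν⟩ := WfDvdMonoid.exists_irreducible_factor hu hν0
      have hpr := hp.prime
      have h1 : p ∣ PQ b N := hpr.dvd_of_dvd_pow (hpν.trans hd)
      have h2 : p ∣ ∏ i, (X - C (b i : ℚ)) := by
        unfold PQ at h1
        rcases hpr.dvd_or_dvd h1 with h3 | h3
        · exfalso
          apply hp.not_isUnit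
          exact isUnit_of_dvd_unit h3 (isUnit_C.2 (by
            rw [isUnit_iff_ne_zero]
            exact_mod_cast hN))
        · exact h3
      obtain ⟨i, -, hi⟩ := (Prime.dvd_finsetProd_iff hpr _).1 h2
      have hirr : Irreducible (X - C (b i : ℚ)) := irreducible_X_sub_C _
      have hass : Associated p (X - C (b i : ℚ)) :=
        (hp.dvd_irreducible_iff_associated hirr).1 hi
      obtain ⟨ν', hν'⟩ := hass.symm.dvd.trans hpν
      have hν'0 : ν' ≠ 0 := by
        rintro rfl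
        rw [mul_zero] at hν'
        exact hν0 hν'
      have hdeg : ν.natDegree = 1 + ν'.natDegree := by
        rw [hν', natDegree_mul (X_sub_C_ne_zero _) hν'0, natDegree_X_sub_C]
      obtain ⟨c, m, hc, hm⟩ := ih ν' (by omega) ((Dvd.intro_left _ hν'.symm).trans hd)
      refine ⟨c, Function.update m i (m i + 1), hc, ?_⟩
      rw [hν', hm]
      rw [← Finset.mul_prod_erase Finset.univ (fun j => (X - C (b j : ℚ)) ^
        Function.update m i (m i + 1) j) (Finset.mem_univ i)]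
      rw [← Finset.mul_prod_erase Finset.univ (fun j => (X - C (b j : ℚ)) ^ m j)
        (Finset.mem_univ i)]
      have h3 : ∏ j ∈ Finset.univ.erase i, (X - C (b j : ℚ)) ^ Function.update m i (m i + 1) j =
          ∏ j ∈ Finset.univ.erase i, (X - C (b j : ℚ)) ^ m j := by
        refine Finset.prod_congr rfl fun j hj => ?_
        rw [Function.update_of_ne (Finset.ne_of_mem_erase hj)]
      rw [h3, Function.update_self, pow_succ]
      ring

/-- One step of the descent. -/
theorem descent_step (hb : StrictMono b) (hN : N ≠ 0) (i : Fin (g + 1)) {α β ν : ℚ[X]}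
    (h : α ^ 2 - β ^ 2 * (PQ b N * (PQ b N + 4)) = ((X - C (b i : ℚ)) * ν) ^ 2) :
    ∃ α' β' : ℚ[X], α = (X - C (b i : ℚ)) * α' ∧ β = (X - C (b i : ℚ)) * β' ∧
      α' ^ 2 - β' ^ 2 * (PQ b N * (PQ b N + 4)) = ν ^ 2 := by
  set l : ℚ[X] := X - C (b i : ℚ) with hl
  have hpr : Prime l := prime_X_sub_C _
  obtain ⟨D, hD, hD0⟩ : ∃ D : ℚ[X], PQ b N * (PQ b N + 4) = l * D ∧ ¬ l ∣ D := by
    refine ⟨(C (N : ℚ) * ∏ j ∈ Finset.univ.erase i, (X - C (b j : ℚ))) * (PQ b N + 4), ?_, ?_⟩
    · have h1 : PQ b N = l * (C (N : ℚ) * ∏ j ∈ Finset.univ.erase i, (X - C (b j : ℚ))) := by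
        unfold PQ
        rw [← Finset.mul_prod_erase Finset.univ (fun j => (X - C (b j : ℚ))) (Finset.mem_univ i)]
        ring
      nth_rewrite 1 [h1]
      ring
    · rw [hl, dvd_iff_isRoot, IsRoot.def, eval_mul, eval_mul, eval_C, eval_prod, eval_add]
      have h1 : (PQ b N).eval (b i : ℚ) = 0 := by
        unfold PQ
        rw [eval_mul, eval_prod, Finset.prod_eq_zero (Finset.mem_univ i) (by simp), mul_zero]
      rw [h1, zero_add]
      refine mul_ne_zero (mul_ne_zero (by exact_mod_cast hN) ?_) ?_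
      · refine Finset.prod_ne_zero_iff.2 fun j hj => ?_
        rw [eval_sub, eval_X, eval_C, sub_ne_zero]
        intro h2
        exact Finset.ne_of_mem_erase hj (hb.injective (by exact_mod_cast h2.symm))
      · simp
  rw [hD] at h
  have h1 : l ∣ α := by
    apply hpr.dvd_of_dvd_pow (n := 2)
    refine ⟨β ^ 2 * D + l * ν ^ 2, ?_⟩
    linear_combination h
  obtain ⟨α', rfl⟩ := h1
  have hl0 : l ≠ 0 := hpr.ne_zero
  have h2 : β ^ 2 * D = l * (α' ^ 2 - ν ^ 2) := by
    apply mul_left_cancel₀ hl0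
    linear_combination -h
  have h3 : l ∣ β := by
    have : l ∣ β ^ 2 * D := ⟨_, h2⟩
    rcases hpr.dvd_or_dvd this with h4 | h4
    · exact hpr.dvd_of_dvd_pow h4
    · exact absurd h4 hD0
  obtain ⟨β', rfl⟩ := h3
  refine ⟨α', β', rfl, rfl, ?_⟩
  rw [hD]
  have hl2 : l ^ 2 ≠ 0 := pow_ne_zero 2 hl0
  apply mul_left_cancel₀ hl2
  linear_combination h

theorem descent (hb : StrictMono b) (hN : N ≠ 0) (c : ℚ) (n : ℕ) : ∀ (m : Fin (g + 1) → ℕ),
    ∑ i, m i = n → ∀ α β : ℚ[X], α ^ 2 - β ^ 2 * (PQ b N * (PQ b N + 4)) =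
      (C c * ∏ i, (X - C (b i : ℚ)) ^ m i) ^ 2 →
    ∃ α' β' : ℚ[X], α = (∏ i, (X - C (b i : ℚ)) ^ m i) * α' ∧
      β = (∏ i, (X - C (b i : ℚ)) ^ m i) * β' ∧
      α' ^ 2 - β' ^ 2 * (PQ b N * (PQ b N + 4)) = C (c ^ 2) := by
  induction n with
  | zero =>
    intro m hm α β h
    have h0 : ∀ i, m i = 0 := by
      intro i
      exact (Finset.sum_eq_zero_iff.1 hm) i (Finset.mem_univ i)
    have h1 : ∏ i, (X - C (b i : ℚ)) ^ m i = 1 := Finset.prod_eq_one fun i _ => by
      rw [h0 i, pow_zero]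
    rw [h1, mul_one, ← C_pow] at h
    exact ⟨α, β, by rw [h1, one_mul], by rw [h1, one_mul], h⟩
  | succ n ih =>
    intro m hm α β h
    obtain ⟨i, hi⟩ : ∃ i, m i ≠ 0 := by
      by_contra hcon
      push Not at hcon
      rw [Finset.sum_eq_zero fun i _ => hcon i] at hm
      omega
    set m' := Function.update m i (m i - 1) with hm'
    have hprod : ∏ j, (X - C (b j : ℚ)) ^ m j =
        (X - C (b i : ℚ)) * ∏ j, (X - C (b j : ℚ)) ^ m' j := by
      rw [← Finset.mul_prod_erase Finset.univ (fun j => (X - C (b j : ℚ)) ^ m j)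
        (Finset.mem_univ i)]
      rw [← Finset.mul_prod_erase Finset.univ (fun j => (X - C (b j : ℚ)) ^ m' j)
        (Finset.mem_univ i)]
      have h3 : ∏ j ∈ Finset.univ.erase i, (X - C (b j : ℚ)) ^ m' j =
          ∏ j ∈ Finset.univ.erase i, (X - C (b j : ℚ)) ^ m j := by
        refine Finset.prod_congr rfl fun j hj => ?_
        rw [hm', Function.update_of_ne (Finset.ne_of_mem_erase hj)]
      rw [h3, hm', Function.update_self]
      obtain ⟨k, hk⟩ := Nat.exists_eq_succ_of_ne_zero hi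
      rw [hk, Nat.succ_sub_one, pow_succ]
      ring
    have hsum : ∑ j, m' j = n := by
      have h1 := Finset.add_sum_erase Finset.univ m (Finset.mem_univ i)
      have h2 := Finset.add_sum_erase Finset.univ m' (Finset.mem_univ i)
      have h3 : ∑ j ∈ Finset.univ.erase i, m' j = ∑ j ∈ Finset.univ.erase i, m j := by
        refine Finset.sum_congr rfl fun j hj => ?_
        rw [hm', Function.update_of_ne (Finset.ne_of_mem_erase hj)]
      have h4 : m' i = m i - 1 := by rw [hm', Function.update_self]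
      omega
    obtain ⟨α₁, β₁, e1, e2, e3⟩ := descent_step hb hN i (α := α) (β := β)
      (ν := C c * ∏ j, (X - C (b j : ℚ)) ^ m' j) (by rw [h, hprod]; ring)
    obtain ⟨α', β', f1, f2, f3⟩ := ih m' hsum α₁ β₁ e3
    exact ⟨α', β', by rw [e1, f1, hprod]; ring, by rw [e2, f2, hprod]; ring, f3⟩

theorem group_aux {G ι : Type*} [CommGroup G] [Fintype ι] (n s f : G) (l : ι → G) (m : ι → ℕ)
    (κ : ℤ) (k : ℕ) : ((n * ∏ i, l i) ^ k)⁻¹ * ((∏ i, l i ^ m i) * (s * f ^ κ)) =
      s * (n ^ k)⁻¹ * f ^ κ * ∏ i, l i ^ ((m i : ℤ) - (k : ℕ)) := by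
  have h11 : ∏ i, l i ^ ((m i : ℤ) - (k : ℕ)) = (∏ i, l i ^ m i) * ((∏ i, l i) ^ k)⁻¹ := by
    rw [← Finset.prod_pow, ← Finset.prod_inv_distrib, ← Finset.prod_mul_distrib]
    refine Finset.prod_congr rfl fun i _ => ?_
    rw [zpow_sub, zpow_natCast, zpow_natCast]
  rw [h11, mul_pow, mul_inv]
  ac_rfl

/-- The constant functions. -/
noncomputable def uC (c : ℚˣ) : (CoordRing b N)ˣ :=
  Units.map (algebraMap ℚ (CoordRing b N) : ℚ →* CoordRing b N) c

/-- The square of every unit is a product of a constant and of powers of `(t - 1) / t` and of the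
`x - b_i`. -/
theorem units_sq (hb : StrictMono b) (hN : N ≠ 0) (u : (CoordRing b N)ˣ) :
    ∃ (c : ℚˣ) (k : ℤ) (m : Fin (g + 1) → ℤ),
      u ^ 2 = uC c * uF b N ^ k * ∏ i, uL b N i ^ m i := by
  obtain ⟨k, α, β, h1⟩ := exists_repr (b := b) (N := N) u
  obtain ⟨l, α', β', h2⟩ := exists_repr (b := b) (N := N) ((u⁻¹ : (CoordRing b N)ˣ) : CoordRing b N)
  have hw := wR_sq (b := b) (N := N)
  -- the norm divides a power of `P`
  have h3 : phi b N (α * α' + β * β' * (PQ b N * (PQ b N + 4)) - PQ b N ^ (k + l)) +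
      phi b N (α * β' + α' * β) * wR b N = 0 := by
    have h4 : (phi b N α + phi b N β * wR b N) * (phi b N α' + phi b N β' * wR b N) =
        phi b N (PQ b N) ^ (k + l) := by
      rw [← h1, ← h2, pow_add]
      have : (u : CoordRing b N) * ((u⁻¹ : (CoordRing b N)ˣ) : CoordRing b N) = 1 := by
        rw [← Units.val_mul, mul_inv_cancel, Units.val_one]
      linear_combination (phi b N (PQ b N) ^ k * phi b N (PQ b N) ^ l) * this
    rw [map_mul, map_add, map_ofNat] at hw
    simp only [map_sub, map_add, map_mul, map_pow, map_ofNat]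
    linear_combination h4 - (phi b N β * phi b N β') * hw
  obtain ⟨h5, h6⟩ := repr_zero hN h3
  set D := PQ b N * (PQ b N + 4) with hD
  have h7 : (α ^ 2 - β ^ 2 * D) * (α' ^ 2 - β' ^ 2 * D) = PQ b N ^ (2 * (k + l)) := by
    have e1 : α * α' + β * β' * D = PQ b N ^ (k + l) := sub_eq_zero.1 h5
    have : (α ^ 2 - β ^ 2 * D) * (α' ^ 2 - β' ^ 2 * D) =
        (α * α' + β * β' * D) ^ 2 - D * (α * β' + α' * β) ^ 2 := by ring
    rw [this, e1, h6]
    ring
  obtain ⟨c, m, hc, hm⟩ := dvd_pow_PQ hN (2 * (k + l)) _ (α ^ 2 - β ^ 2 * D) le_rfl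
    (Dvd.intro _ h7)
  obtain ⟨α₁, β₁, e1, e2, e3⟩ := descent hb hN c _ m rfl (α ^ 2 + β ^ 2 * D) (2 * α * β)
    (by rw [← hm]; ring)
  obtain ⟨κ, s, hs, hp⟩ := pell (P := PQ b N) (by rw [natDegree_PQ hN]; omega) (phi b N)
    (w := wR b N) (E := uF b N) wR_sq two_uF e3
  have hs0 : s ≠ 0 := by
    rcases hs with rfl | rfl
    · exact hc
    · exact neg_ne_zero.2 hc
  have hNQ : (N : ℚ) ≠ 0 := by exact_mod_cast hN
  -- the product of the linear factors
  have hlin : ∀ i, phi b N (X - C ((b i : ℤ) : ℚ)) = (uL b N i : CoordRing b N) := by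
    intro i
    rw [map_sub, phi_X, phi_C, map_intCast, uL_val]
  have hprod : phi b N (∏ i, (X - C (b i : ℚ)) ^ m i) =
      ((∏ i, uL b N i ^ m i : (CoordRing b N)ˣ) : CoordRing b N) := by
    rw [map_prod, Units.coe_prod]
    refine Finset.prod_congr rfl fun i _ => ?_
    rw [map_pow, hlin, Units.val_pow_eq_pow_val]
  have hPu : phi b N (PQ b N) = ((uC (Units.mk0 (N : ℚ) hNQ) * ∏ i, uL b N i :
      (CoordRing b N)ˣ) : CoordRing b N) := by
    unfold PQ
    rw [map_mul, map_prod, Finset.prod_congr rfl fun i _ => hlin i, phi_C, Units.val_mul,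
      Units.coe_prod]
    rfl
  have hsu : phi b N (C s) = ((uC (Units.mk0 s hs0) : (CoordRing b N)ˣ) : CoordRing b N) := by
    rw [phi_C]
    rfl
  have h8 : (phi b N α + phi b N β * wR b N) ^ 2 =
      phi b N (∏ i, (X - C (b i : ℚ)) ^ m i) * (phi b N α₁ + phi b N β₁ * wR b N) := by
    have e4 : phi b N (α ^ 2 + β ^ 2 * D) =
        phi b N (∏ i, (X - C (b i : ℚ)) ^ m i) * phi b N α₁ := by rw [e1, map_mul]
    have e5 : phi b N (2 * α * β) =
        phi b N (∏ i, (X - C (b i : ℚ)) ^ m i) * phi b N β₁ := by rw [e2, map_mul]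
    have e6 : (phi b N α + phi b N β * wR b N) ^ 2 =
        phi b N (α ^ 2 + β ^ 2 * D) + phi b N (2 * α * β) * wR b N := by
      simp only [map_add, map_mul, map_pow, map_ofNat]
      linear_combination (phi b N β ^ 2) * hw
    rw [e6, e4, e5]
    ring
  have h9 : (uC (Units.mk0 (N : ℚ) hNQ) * ∏ i, uL b N i) ^ (2 * k) * u ^ 2 =
      (∏ i, uL b N i ^ m i) * (uC (Units.mk0 s hs0) * uF b N ^ κ) := by
    ext
    rw [Units.val_mul, Units.val_pow_eq_pow_val, ← hPu, Units.val_pow_eq_pow_val, Units.val_mul,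
      ← hprod, Units.val_mul, ← hsu, ← hp, ← h8, ← h1]
    ring
  refine ⟨Units.mk0 s hs0 * (Units.mk0 (N : ℚ) hNQ ^ (2 * k))⁻¹, κ,
    fun i => (m i : ℤ) - (2 * k : ℕ), ?_⟩
  have h10 : u ^ 2 = ((uC (Units.mk0 (N : ℚ) hNQ) * ∏ i, uL b N i) ^ (2 * k))⁻¹ *
      ((∏ i, uL b N i ^ m i) * (uC (Units.mk0 s hs0) * uF b N ^ κ)) := by
    rw [← h9, inv_mul_cancel_left]
  have h12 : (uC (Units.mk0 s hs0 * (Units.mk0 (N : ℚ) hNQ ^ (2 * k))⁻¹) : (CoordRing b N)ˣ) =
      uC (Units.mk0 s hs0) * (uC (Units.mk0 (N : ℚ) hNQ) ^ (2 * k))⁻¹ := by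
    unfold uC
    rw [map_mul, map_inv, map_pow]
  rw [h10, h12]
  exact group_aux _ _ _ _ _ _ _

end P4a177uH
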