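import Pool.Agent.Lib.P4a177u.Defs
import Pool.Agent.Lib.P4a177u.Units

/-!
# The squares of the units of the coordinate ring
-/

set_option autoImplicit false

namespace P4a177u

open P4a177h P4a177d

variable {g : ℕ} (b : Fin (g + 1) → ℤ) (N : ℤ)

theorem unit_sq (hb : StrictMono b) (hN : N ≠ 0) (u : (CoordRing b N)ˣ) :
    ∃ (c : ℚˣ) (k : ℤ) (κ : Fin (g + 1) → ℤ),
      u ^ 2 = cst b N c * uF b N ^ k * ∏ i, uL b N i ^ κ i :=
  P4a177uH.units_sq hb hN u

end P4a177u
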