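import Pool.Agent.Lib.P4a177u.RatZ
import Pool.Agent.Lib.P4a177u.Quo
import Pool.Agent.Lib.P4a177u.UnitSq
import Pool.Agent.Lib.P4a177u.AlgB
import Pool.Agent.Lib.P4a177u.Kill
import Pool.Agent.Lib.P4a177d.AdmD

/-!
# The unramified elements of `K_2` of the coordinate ring are combinations of the `ξ_p`, up to torsion
-/

set_option autoImplicit false

namespace P4a177u

open P4a177h P4a177d

variable {g : ℕ} {b : Fin (g + 1) → ℤ} {N : ℤ}

/-- A symbol of the coordinate ring restricts to a symbol of `ℚ`. -/
noncomputable def Sy.restr {G : Type*} [AddCommGroup G] (S : Sy (CoordRing b N) G) : Sy ℚ G where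
  B c d := S.B (cst b N c) (cst b N d)
  mul_left a c d := by rw [map_mul, S.mul_left]
  mul_right a c d := by rw [map_mul, S.mul_right]
  neg a := by
    have h : cst b N (-a) = -cst b N a := by
      apply Units.ext
      simp [cst]
    rw [h, S.neg]
  st a c h := by
    apply S.st
    show algebraMap ℚ (CoordRing b N) (a : ℚ) + algebraMap ℚ (CoordRing b N) (c : ℚ) = 1
    rw [← map_add, h, map_one]
  tf := S.tf

theorem const_zero {G : Type*} [AddCommGroup G] (S : Sy (CoordRing b N) G) (c d : ℚˣ) :
    S.B (cst b N c) (cst b N d) = 0 := rat_zero S.restr c d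

theorem good_all (hb : StrictMono b) (hN : N ≠ 0) (η : MilnorK 2 (CoordRing b N)) :
    Good b N (uni (CoordRing b N)) ((4 * (g + 1)) • QuotientAddGroup.mk η) := by
  induction η using QuotientAddGroup.induction_on with
  | H z =>
    induction z using FreeAbelianGroup.induction_on with
    | zero =>
      have : (QuotientAddGroup.mk (QuotientAddGroup.mk (0 : FreeAbelianGroup (Fin 2 → (CoordRing b N)ˣ)) :
        MilnorK 2 (CoordRing b N)) : MilnorK 2 (CoordRing b N) ⧸ Tor (CoordRing b N)) = 0 := rfl
      rw [this, smul_zero]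
      exact good_zero
    | of a =>
      have h := good_pair (S := uni (CoordRing b N)) hb.injective hN (const_zero _) (a 0) (a 1)
        (unit_sq b N hb hN (a 0)) (unit_sq b N hb hN (a 1))
      rw [uni_B] at h
      have ha : ![a 0, a 1] = a := by
        funext i
        fin_cases i <;> rfl
      rw [ha] at h
      exact h
    | neg a ih =>
      have h := good_neg ih
      have e : ∀ x : MilnorK 2 (CoordRing b N) ⧸ Tor (CoordRing b N),
          (4 * (g + 1)) • (-x) = -((4 * (g + 1)) • x) := fun x => neg_nsmul x _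
      rw [← e] at h
      exact h
    | add x y hx hy =>
      have h := good_add hx hy
      have e : ∀ x y : MilnorK 2 (CoordRing b N) ⧸ Tor (CoordRing b N),
          (4 * (g + 1)) • (x + y) = (4 * (g + 1)) • x + (4 * (g + 1)) • y :=
        fun x y => nsmul_add x y _
      rw [← e] at h
      exact h

theorem isOfFinAddOrder_sum {A ι : Type*} [AddCommGroup A] (s : Finset ι) (f : ι → A)
    (h : ∀ i ∈ s, IsOfFinAddOrder (f i)) : IsOfFinAddOrder (∑ i ∈ s, f i) := by
  have : ∑ i ∈ s, f i ∈ AddCommGroup.torsion A := sum_mem fun i hi => h i hi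
  exact this

/-- symbols with the first entry `± 1` -/
theorem sign_tor (c : ℚˣ) (hc : c = 1 ∨ c = -1) (u : (CoordRing b N)ˣ) :
    symb ![cst b N c, u] ∈ Tor (CoordRing b N) := by
  rw [← QuotientAddGroup.eq_zero_iff]
  have h : (uni (CoordRing b N)).B (cst b N c) u = 0 := by
    rcases hc with rfl | rfl
    · rw [map_one, Sy.one_left]
    · have h : cst b N (-1) = -1 := by
        apply Units.ext
        simp [cst]
      rw [h, Sy.neg_one_left]
  exact h

/-- The element `η` of the Milnor K-group of the `ℚ`-algebra `R` is unramified, up to torsion, at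
every discrete valuation of the fraction field of `R` that is trivial on `ℚ`. -/
def UnramifiedOverQ {n : ℕ} {R : Type} [CommRing R] [Algebra ℚ R] (η : MilnorK n R) : Prop :=
  ∀ (K : Type) [Field K] [Algebra R K] [IsFractionRing R K]
    (v : Valuation K (WithZero (Multiplicative ℤ))),
    (∀ c : ℚˣ, v (algebraMap R K (algebraMap ℚ R c)) = 1) →
      Unramified v (map (algebraMap R K) η)

theorem spans (hb : StrictMono b) (hN : N ≠ 0) (η : MilnorK 2 (CoordRing b N))
    (hη : UnramifiedOverQ η) (hξ : ∀ p, P4a177s.UnramifiedEverywhere (xi b N p)) :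
    ∃ c : Fin g → ℤ, (4 * (g + 1)) • η - ∑ p, c p • xi b N p ∈ Tor (CoordRing b N) := by
  have := isDomain b N hN
  obtain ⟨n, c, d, h⟩ := good_all hb hN η
  set T := Tor (CoordRing b N)
  set ζ : MilnorK 2 (CoordRing b N) :=
    symb ![cst b N c, uF b N] + ∑ i, symb ![cst b N (d i), uL b N i] with hζ
  have h1 : (4 * (g + 1)) • η - ∑ p, n p • xi b N p - ζ ∈ T := by
    rw [← QuotientAddGroup.eq_zero_iff]
    have e : (QuotientAddGroup.mk' T) ((4 * (g + 1)) • η - ∑ p, n p • xi b N p - ζ) = 0 := by
      rw [map_sub, map_sub, map_nsmul, map_sum, hζ, map_add, map_sum]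
      simp only [map_zsmul]
      have h' : (4 * (g + 1)) • (QuotientAddGroup.mk' T) η =
        ∑ p, n p • (QuotientAddGroup.mk' T) (xi b N p) +
        (QuotientAddGroup.mk' T) (symb ![cst b N c, uF b N]) +
        ∑ i, (QuotientAddGroup.mk' T) (symb ![cst b N (d i), uL b N i]) := h
      rw [h']
      abel
    exact e
  have h2 := kill b N (FractionRing (CoordRing b N)) hb.injective hN c d fun v hv => by
    set φ := algebraMap (CoordRing b N) (FractionRing (CoordRing b N))
    have e : ζ = (4 * (g + 1)) • η - ∑ p, n p • xi b N p -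
        ((4 * (g + 1)) • η - ∑ p, n p • xi b N p - ζ) := by abel
    rw [← hζ, e]
    have f1 : IsOfFinAddOrder (tm v (map φ ((4 * (g + 1)) • η))) := by
      rw [map_nsmul, map_nsmul]
      exact (tm_unram v (hη (FractionRing (CoordRing b N)) v hv)).nsmul
    have f2 : IsOfFinAddOrder (tm v (map φ (∑ p, n p • xi b N p))) := by
      rw [map_sum, map_sum]
      refine isOfFinAddOrder_sum _ _ fun p _ => ?_
      rw [map_zsmul, map_zsmul]
      exact (tm_unram v (hξ p (FractionRing (CoordRing b N)) v)).zsmul
    have f3 : IsOfFinAddOrder (tm v (map φ ((4 * (g + 1)) • η - ∑ p, n p • xi b N p - ζ))) := by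
      obtain ⟨k, hk, hk'⟩ := map_tor φ h1
      rw [isOfFinAddOrder_iff_nsmul_eq_zero]
      exact ⟨k, hk, by rw [← map_nsmul, hk', map_zero]⟩
    rw [map_sub (map φ), map_sub (map φ) , map_sub (tm v), map_sub (tm v)]
    change _ ∈ AddCommGroup.torsion _
    exact sub_mem (sub_mem f1 f2) f3
  refine ⟨n, ?_⟩
  have h3 : ζ ∈ T := by
    rw [hζ]
    exact add_mem (sign_tor c h2.1 _) (sum_mem fun i _ => sign_tor (d i) (h2.2 i) _)
  have e : (4 * (g + 1)) • η - ∑ p, n p • xi b N p =
      ((4 * (g + 1)) • η - ∑ p, n p • xi b N p - ζ) + ζ := by abel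
  rw [e]
  exact add_mem h1 h3

/-- The unramified elements of `K_2` of the coordinate ring: after multiplication by `4 (g + 1)` their
regulators are the regulators of an integral combination of the `ξ_p`, and in `K_2` of the function
field they are equal to this combination up to torsion. -/
theorem unramified_span (hb : StrictMono b) (hN : N ≠ 0) (η : MilnorK 2 (CoordRing b N))
    (hη : UnramifiedOverQ η) :
    ∃ c : Fin g → ℤ,
      (∀ γ : Torus 1 (CoordRing b N),
        (4 * (g + 1)) * reg γ η = ∑ p, (c p : ℝ) * reg γ (xi b N p)) ∧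
      ∀ (K : Type) [Field K] [Algebra (CoordRing b N) K] [IsFractionRing (CoordRing b N) K],
        ∃ k : ℕ, 0 < k ∧ k • ((4 * (g + 1)) • map (algebraMap (CoordRing b N) K) η -
          ∑ p, c p • map (algebraMap (CoordRing b N) K) (xi b N p)) = 0 := by
  obtain ⟨c, hc⟩ := spans hb hN η hη fun p => unramified_xi b N p
  refine ⟨c, fun γ => ?_, fun K _ _ _ => ?_⟩
  · have h := reg_tor γ hc
    rw [map_sub, map_nsmul, map_sum, sub_eq_zero, nsmul_eq_mul] at h
    simp only [map_zsmul, zsmul_eq_mul] at h
    rw [← h]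
    push_cast
    ring
  · obtain ⟨k, hk, h⟩ := map_tor (algebraMap (CoordRing b N) K) hc
    refine ⟨k, hk, ?_⟩
    rw [map_sub, map_nsmul, map_sum] at h
    simp only [map_zsmul] at h
    exact h

end P4a177u
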