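import Pool.Agent.Lib.P4a177u.Main
import Pool.Agent.Lib.P4a177u.Span

/-!
# The statement for the final theorem
-/

set_option autoImplicit false

namespace P4a177u

open P4a177h P4a177d

variable {g : ℕ} {b : Fin (g + 1) → ℤ} {N : ℤ}

theorem spanned (hb : StrictMono b) (hN : N ≠ 0) (h : MilnorK 2 (CoordRing b N))
    (hh : UnramifiedOverQ h) : SpannedBy (xi b N) (4 * (g + 1)) h :=
  spannedBy_of_tor (spans hb hN h hh fun p => P4a177d.unramified_xi b N p)

end P4a177u
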