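import Mathlib

/-!
# The Pell equation `α² - β² P (P + 4) = c²` for polynomials
-/

set_option autoImplicit false

namespace P4a177uH

open Polynomial

variable {F : Type*} [Field F] [CharZero F] {P : F[X]}

omit [CharZero F] in
/-- The leading coefficients and degrees of a solution. -/
theorem pell_lead (hP : 1 ≤ P.natDegree) {α β : F[X]} {c : F} (hβ : β ≠ 0)
    (h : α ^ 2 - β ^ 2 * (P * (P + 4)) = C (c ^ 2)) :
    α.natDegree = β.natDegree + P.natDegree ∧
      (α.leadingCoeff = β.leadingCoeff * P.leadingCoeff ∨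
        α.leadingCoeff = -(β.leadingCoeff * P.leadingCoeff)) := by
  have hP0 : P ≠ 0 := by
    rintro rfl
    simp at hP
  have hdeg4 : (4 : F[X]).degree < P.degree := by
    have h1 : (4 : F[X]) = C 4 := (map_ofNat C 4).symm
    rw [h1]
    refine lt_of_le_of_lt degree_C_le ?_
    rw [degree_eq_natDegree hP0]
    exact_mod_cast (by omega : 0 < P.natDegree)
  have hlc4 : (P + 4).leadingCoeff = P.leadingCoeff := leadingCoeff_add_of_degree_lt' hdeg4
  have hd4 : (P + 4).degree = P.degree := degree_add_eq_left_of_degree_lt hdeg4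
  have hP4 : P + 4 ≠ 0 := by
    intro h0
    rw [h0, degree_zero] at hd4
    exact hP0 (degree_eq_bot.1 hd4.symm)
  have hn4 : (P + 4).natDegree = P.natDegree := natDegree_eq_of_degree_eq hd4
  set D := β ^ 2 * (P * (P + 4)) with hD
  have hD0 : D ≠ 0 := mul_ne_zero (pow_ne_zero 2 hβ) (mul_ne_zero hP0 hP4)
  have hDn : D.natDegree = 2 * (β.natDegree + P.natDegree) := by
    rw [hD, natDegree_mul (pow_ne_zero 2 hβ) (mul_ne_zero hP0 hP4), natDegree_mul hP0 hP4,
      natDegree_pow, hn4]
    ring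
  have hDl : D.leadingCoeff = (β.leadingCoeff * P.leadingCoeff) ^ 2 := by
    rw [hD, leadingCoeff_mul, leadingCoeff_mul, leadingCoeff_pow, hlc4]
    ring
  have hα : α ^ 2 = C (c ^ 2) + D := by
    rw [← h]
    ring
  have hCD : (C (c ^ 2) : F[X]).degree < D.degree := by
    refine lt_of_le_of_lt degree_C_le ?_
    rw [degree_eq_natDegree hD0, hDn]
    exact_mod_cast (by omega : 0 < 2 * (β.natDegree + P.natDegree))
  have h1 : (α ^ 2).degree = D.degree := by
    rw [hα]
    exact degree_add_eq_right_of_degree_lt hCD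
  have h2 : (α ^ 2).leadingCoeff = D.leadingCoeff := by
    rw [hα]
    exact leadingCoeff_add_of_degree_lt hCD
  constructor
  · have h3 := natDegree_eq_of_degree_eq h1
    rw [natDegree_pow, hDn] at h3
    omega
  · rw [leadingCoeff_pow, hDl] at h2
    exact sq_eq_sq_iff_eq_or_eq_neg.1 h2

/-- The degree goes down. -/
theorem pell_deg (hP : 1 ≤ P.natDegree) {α β : F[X]} {c : F} (hβ : β ≠ 0)
    (h : α ^ 2 - β ^ 2 * (P * (P + 4)) = C (c ^ 2))
    (hl : α.leadingCoeff = β.leadingCoeff * P.leadingCoeff) :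
    β * (P + 2) - α = 0 ∨ (β * (P + 2) - α).natDegree < β.natDegree := by
  have hP0 : P ≠ 0 := by
    rintro rfl
    simp at hP
  obtain ⟨hn, -⟩ := pell_lead hP hβ h
  have hdeg2 : (2 : F[X]).degree < P.degree := by
    have h1 : (2 : F[X]) = C 2 := (map_ofNat C 2).symm
    rw [h1]
    refine lt_of_le_of_lt degree_C_le ?_
    rw [degree_eq_natDegree hP0]
    exact_mod_cast (by omega : 0 < P.natDegree)
  have hlc2 : (P + 2).leadingCoeff = P.leadingCoeff := leadingCoeff_add_of_degree_lt' hdeg2
  have hd2 : (P + 2).degree = P.degree := degree_add_eq_left_of_degree_lt hdeg2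
  have hP2 : P + 2 ≠ 0 := by
    intro h0
    rw [h0, degree_zero] at hd2
    exact hP0 (degree_eq_bot.1 hd2.symm)
  have hn2 : (P + 2).natDegree = P.natDegree := natDegree_eq_of_degree_eq hd2
  by_cases h0 : β * (P + 2) - α = 0
  · exact Or.inl h0
  · right
    have hβn : (β * (P + 2)).natDegree = β.natDegree + P.natDegree := by
      rw [natDegree_mul hβ hP2, hn2]
    have hβl : (β * (P + 2)).leadingCoeff = β.leadingCoeff * P.leadingCoeff := by
      rw [leadingCoeff_mul, hlc2]
    have hlne : β.leadingCoeff * P.leadingCoeff ≠ 0 :=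
      mul_ne_zero (leadingCoeff_ne_zero.2 hβ) (leadingCoeff_ne_zero.2 hP0)
    -- the coefficient of the sum
    have hcoef : (β * (P + 2) + α).coeff (β.natDegree + P.natDegree) ≠ 0 := by
      rw [coeff_add, ← hβn, coeff_natDegree, hβl, hβn, ← hn, coeff_natDegree, hl, ← two_mul]
      exact mul_ne_zero two_ne_zero hlne
    have hsum : β.natDegree + P.natDegree ≤ (β * (P + 2) + α).natDegree :=
      le_natDegree_of_ne_zero hcoef
    have hs0 : β * (P + 2) + α ≠ 0 := by
      intro h1
      rw [h1, coeff_zero] at hcoef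
      exact hcoef rfl
    have hprod : (β * (P + 2) - α) * (β * (P + 2) + α) = 4 * β ^ 2 - C (c ^ 2) := by
      rw [← h]
      ring
    have hle : (4 * β ^ 2 - C (c ^ 2)).natDegree ≤ 2 * β.natDegree := by
      refine (natDegree_sub_le _ _).trans (max_le ?_ ?_)
      · refine natDegree_mul_le.trans ?_
        rw [natDegree_pow]
        have : (4 : F[X]).natDegree = 0 := by
          rw [show (4 : F[X]) = C 4 from (map_ofNat C 4).symm, natDegree_C]
        omega
      · rw [natDegree_C]
        exact Nat.zero_le _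
    rw [← hprod, natDegree_mul h0 hs0] at hle
    omega

omit [CharZero F] in
theorem pell_const {R : Type*} [CommRing R] (φ : F[X] →+* R) {α : F[X]} {c : F}
    (h : α ^ 2 = C (c ^ 2)) : ∃ s : F, (s = c ∨ s = -c) ∧ φ α = φ (C s) := by
  have h1 : (α - C c) * (α + C c) = 0 := by
    have : (α - C c) * (α + C c) = α ^ 2 - (C c) ^ 2 := by ring
    rw [this, h, ← C_pow, sub_self]
  rcases mul_eq_zero.1 h1 with h2 | h2
  · exact ⟨c, Or.inl rfl, by rw [sub_eq_zero.1 h2]⟩
  · exact ⟨-c, Or.inr rfl, by rw [eq_neg_of_add_eq_zero_left h2, ← C_neg]⟩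

theorem pell_aux (hP : 1 ≤ P.natDegree) {R : Type*} [CommRing R] (φ : F[X] →+* R) {c : F}
    (n : ℕ) : ∀ (w : R) (E : Rˣ), w ^ 2 = φ (P * (P + 4)) → 2 * (E : R) = φ (P + 2) - w →
      ∀ α β : F[X], (β = 0 ∨ β.natDegree < n) → α ^ 2 - β ^ 2 * (P * (P + 4)) = C (c ^ 2) →
      ∃ (k : ℤ) (s : F), (s = c ∨ s = -c) ∧ φ α + φ β * w = φ (C s) * ((E ^ k : Rˣ) : R) := by
  induction n with
  | zero =>
    intro w E hw hE α β hβ h
    have h0 : β = 0 := hβ.resolve_right (by omega)
    subst h0
    obtain ⟨s, hs, h1⟩ := pell_const φ (α := α) (c := c) (by rw [← h]; ring)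
    exact ⟨0, s, hs, by rw [h1]; simp⟩
  | succ n ih =>
    -- the case of equal leading coefficients
    have key : ∀ (w : R) (E : Rˣ), w ^ 2 = φ (P * (P + 4)) → 2 * (E : R) = φ (P + 2) - w →
        ∀ α β : F[X], β ≠ 0 → β.natDegree < n + 1 →
        α ^ 2 - β ^ 2 * (P * (P + 4)) = C (c ^ 2) →
        α.leadingCoeff = β.leadingCoeff * P.leadingCoeff →
        ∃ (k : ℤ) (s : F), (s = c ∨ s = -c) ∧
          φ α + φ β * w = φ (C s) * ((E ^ k : Rˣ) : R) := by
      intro w E hw hE α β hβ hβn h hl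
      have hd := pell_deg hP hβ h hl
      set hf : R := φ (C (1 / 2 : F)) with hhf
      have hf2 : hf * 2 = 1 := by
        have : (2 : R) = φ (C (2 : F)) := by rw [map_ofNat, map_ofNat]
        rw [hhf, this, ← map_mul, ← C_mul]
        norm_num
      have hhalf : (C (1 / 2 : F) : F[X]) * 2 = 1 := by
        have : (2 : F[X]) = C (2 : F) := (map_ofNat C 2).symm
        rw [this, ← C_mul]
        norm_num
      have hEh : (E : R) = hf * (φ (P + 2) - w) := by
        rw [← hE, ← mul_assoc, hf2, one_mul]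
      set α₁ : F[X] := C (1 / 2 : F) * (α * (P + 2) - β * (P * (P + 4))) with hα₁
      set β₁ : F[X] := C (1 / 2 : F) * (β * (P + 2) - α) with hβ₁
      have hβ₁n : β₁ = 0 ∨ β₁.natDegree < n := by
        rcases hd with hd | hd
        · left
          rw [hβ₁, hd, mul_zero]
        · right
          have : β₁.natDegree ≤ (β * (P + 2) - α).natDegree := by
            rw [hβ₁]
            exact natDegree_C_mul_le _ _
          omega
      have hq : (4 : F[X]) * (α₁ ^ 2 - β₁ ^ 2 * (P * (P + 4))) = 4 * C (c ^ 2) := by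
        have e1 : 2 * α₁ = α * (P + 2) - β * (P * (P + 4)) := by
          rw [hα₁]
          linear_combination (α * (P + 2) - β * (P * (P + 4))) * hhalf
        have e2 : 2 * β₁ = β * (P + 2) - α := by
          rw [hβ₁]
          linear_combination (β * (P + 2) - α) * hhalf
        have : (4 : F[X]) * (α₁ ^ 2 - β₁ ^ 2 * (P * (P + 4))) =
            (2 * α₁) ^ 2 - (2 * β₁) ^ 2 * (P * (P + 4)) := by ring
        rw [this, e1, e2, ← h]
        ring
      have h₁ : α₁ ^ 2 - β₁ ^ 2 * (P * (P + 4)) = C (c ^ 2) := by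
        have h4 : (4 : F[X]) ≠ 0 := by
          rw [show (4 : F[X]) = C 4 from (map_ofNat C 4).symm]
          exact C_ne_zero.2 (by norm_num)
        exact mul_left_cancel₀ h4 hq
      obtain ⟨k, s, hs, hk⟩ := ih w E hw hE α₁ β₁ hβ₁n h₁
      refine ⟨k - 1, s, hs, ?_⟩
      have hmul : (φ α + φ β * w) * (E : R) = φ α₁ + φ β₁ * w := by
        rw [hEh, hα₁, hβ₁]
        simp only [map_mul, map_sub, map_add, ← hhf]
        have hw' : w ^ 2 = φ P * (φ P + φ 4) := by rw [hw, map_mul, map_add]
        linear_combination (-(hf * φ β)) * hw'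
      rw [hk] at hmul
      have : φ α + φ β * w = (φ (C s) * ((E ^ k : Rˣ) : R)) * ((E⁻¹ : Rˣ) : R) := by
        rw [← hmul, mul_assoc, ← Units.val_mul, mul_inv_cancel, Units.val_one, mul_one]
      rw [this, mul_assoc, ← Units.val_mul, zpow_sub_one]
    intro w E hw hE α β hβ h
    by_cases h0 : β = 0
    · subst h0
      obtain ⟨s, hs, h1⟩ := pell_const φ (α := α) (c := c) (by rw [← h]; ring)
      exact ⟨0, s, hs, by rw [h1]; simp⟩
    · have hβn := hβ.resolve_left h0
      rcases (pell_lead hP h0 h).2 with hl | hl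
      · exact key w E hw hE α β h0 hβn h hl
      · -- replace `w` by `-w`
        have hE' : 2 * ((E⁻¹ : Rˣ) : R) = φ (P + 2) - (-w) := by
          have h1 : (E : R) * (φ (P + 2) + w) = 2 := by
            have h2 : 2 * ((E : R) * (φ (P + 2) + w)) = 4 := by
              have h3 : 2 * ((E : R) * (φ (P + 2) + w)) = (φ (P + 2) - w) * (φ (P + 2) + w) := by
                rw [← hE]
                ring
              have h4 : (φ (P + 2) - w) * (φ (P + 2) + w) = φ ((P + 2) ^ 2) - w ^ 2 := by
                rw [map_pow]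
                ring
              rw [h3, h4, hw, ← map_sub]
              have : (P + 2) ^ 2 - P * (P + 4) = 4 := by ring
              rw [this, map_ofNat]
            have hf2 : φ (C (1 / 2 : F)) * 2 = 1 := by
              have : (2 : R) = φ (C (2 : F)) := by rw [map_ofNat, map_ofNat]
              rw [this, ← map_mul, ← C_mul]
              norm_num
            have h5 : φ (C (1 / 2 : F)) * (2 * ((E : R) * (φ (P + 2) + w))) =
                φ (C (1 / 2 : F)) * 4 := by rw [h2]
            calc (E : R) * (φ (P + 2) + w)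
                = (φ (C (1 / 2 : F)) * 2) * ((E : R) * (φ (P + 2) + w)) := by rw [hf2, one_mul]
              _ = φ (C (1 / 2 : F)) * (2 * ((E : R) * (φ (P + 2) + w))) := by ring
              _ = φ (C (1 / 2 : F)) * 4 := h5
              _ = (φ (C (1 / 2 : F)) * 2) * 2 := by ring
              _ = 2 := by rw [hf2, one_mul]
          calc 2 * ((E⁻¹ : Rˣ) : R) = ((E : R) * (φ (P + 2) + w)) * ((E⁻¹ : Rˣ) : R) := by rw [h1]
            _ = ((E : R) * ((E⁻¹ : Rˣ) : R)) * (φ (P + 2) + w) := by ring
            _ = φ (P + 2) - (-w) := by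
              rw [← Units.val_mul, mul_inv_cancel, Units.val_one, one_mul, sub_neg_eq_add]
        obtain ⟨k, s, hs, hk⟩ := key (-w) E⁻¹ (by rw [neg_sq, hw]) hE' α (-β) (neg_ne_zero.2 h0)
          (by rwa [natDegree_neg]) (by rw [neg_sq]; exact h)
          (by rw [leadingCoeff_neg, neg_mul]; exact hl)
        refine ⟨-k, s, hs, ?_⟩
        rw [zpow_neg, ← inv_zpow, ← hk, map_neg]
        ring

/-- The solutions of the Pell equation. -/
theorem pell (hP : 1 ≤ P.natDegree) {R : Type*} [CommRing R] (φ : F[X] →+* R) {w : R} {E : Rˣ}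
    (hw : w ^ 2 = φ (P * (P + 4))) (hE : 2 * (E : R) = φ (P + 2) - w) {α β : F[X]} {c : F}
    (h : α ^ 2 - β ^ 2 * (P * (P + 4)) = C (c ^ 2)) :
    ∃ (k : ℤ) (s : F), (s = c ∨ s = -c) ∧ φ α + φ β * w = φ (C s) * ((E ^ k : Rˣ) : R) :=
  pell_aux hP φ (β.natDegree + 1) w E hw hE α β (Or.inr (Nat.lt_succ_self _)) h

end P4a177uH
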