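import Pool.Agent.Lib.P4a177u.Defs

/-!
# MODULE P4a177u.Repr: every function is `(p(x) + q(x) w) / P(x) ^ M`, uniquely

PROOFS. Write `φ = ev b N`. `cW_sq`: `φ P * (t * (t - 1)) = 1` is `eqn_cX` (`φ P = N ∏ (x - b_i)`: unfold `PQ`,
`map_mul`, `map_prod`, `Polynomial.aeval_X`, `Polynomial.aeval_C`); `w² = (φ P)² (4 t (t - 1) + 1)
= (φ P)² + 4 φ P`. `exists_rep`: lift `v` to a polynomial in `X 0 = x`, `X 1 = t` (`Ideal.Quotient.mk_surjective`) and use
`MvPolynomial.induction_on`: constants `M = 0`; sums: multiply by powers of `φ P`; times `x`: `p X`, `q X`; times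
`t`: `2 t φ P = φ P + w`, so `(p + q w) t φ P = (1/2) (p + q w) (P + w) = (1/2) (p P + q D + (p + q P) w)`.
`indep`: for a rational number `z` with `D(z) ≠ 0` (so `P(z) ≠ 0`) choose `r : ℂ` with `r ^ 2 = D(z)`
(`IsAlgClosed.exists_pow_nat_eq`). The point `(z, (1 + r / P(z)) / 2)` satisfies the equation, so it gives a homomorphism
`ψ : CoordRing b N → ℂ` (`Ideal.Quotient.liftₐ` of `MvPolynomial.aeval`) with `ψ x = z`, `ψ w = r`,
`ψ (ev f) = aeval z f`; the same with `- r`. So `p(z) + q(z) r = 0 = p(z) - q(z) r` and `p(z) = q(z) = 0`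
(`r ≠ 0`). So `p D = q D = 0` (`Polynomial.funext`) and `p = q = 0`.
`isDomain`: if `v v' = 0`, write `v φ P ^ M = φ p + φ q w` and
`v' φ P ^ M' = φ p' + φ q' w`; the product with the conjugates `(φ p - φ q w) (φ p' - φ q' w)` gives
`(p² - q² D) (p'² - q'² D) = 0` by `indep`, so `p² = q² D` (or the same for `p', q'`); if `q ≠ 0` then
`q ∣ p`, `D = s²`, `(P + 2 - s) (P + 2 + s) = 4`, so both factors are constants and `P` is constant, contradiction with
`natDegree P = g + 1`. So `q = 0`, `p = 0`, `v φ P ^ M = 0` and `v = 0` as `φ P` is a unit. Nontriviality: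
`indep` with `p = 1`, `q = 0`.
-/

set_option autoImplicit false

namespace P4a177u

open P4a177h P4a177d

variable {g : ℕ} (b : Fin (g + 1) → ℤ) (N : ℤ)

namespace ReprAux

theorem ev_PQ : ev b N (PQ b N) = (N : CoordRing b N) * ∏ i, (cX b N - (b i : CoordRing b N)) := by
  unfold ev PQ
  rw [map_mul, map_prod, Polynomial.aeval_C, map_intCast]
  congr 1
  refine Finset.prod_congr rfl fun i _ => ?_
  rw [map_sub, Polynomial.aeval_X, Polynomial.aeval_C, map_intCast]

theorem ev_mul : ev b N (PQ b N) * (cT b N * (cT b N - 1)) = 1 := by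
  rw [ev_PQ]
  linear_combination eqn_cX b N

theorem unit_P : IsUnit (ev b N (PQ b N)) :=
  IsUnit.of_mul_eq_one _ (ev_mul b N)

theorem ev_D : ev b N (DQ b N) = ev b N (PQ b N) * (ev b N (PQ b N) + 4) := by
  unfold DQ
  rw [map_mul, map_add]
  congr 2
  exact map_ofNat _ 4

theorem PQ_natDegree (hN : N ≠ 0) : (PQ b N).natDegree = g + 1 := by
  unfold PQ
  rw [Polynomial.natDegree_C_mul (by exact_mod_cast hN)]
  rw [Polynomial.natDegree_prod_of_monic _ _ fun i _ => Polynomial.monic_X_sub_C _]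
  simp only [Polynomial.natDegree_X_sub_C]
  simp

theorem PQ_ne (hN : N ≠ 0) : PQ b N ≠ 0 := by
  intro h
  have := PQ_natDegree b N hN
  rw [h, Polynomial.natDegree_zero] at this
  omega

theorem PQ4_ne (hN : N ≠ 0) : PQ b N + 4 ≠ 0 := by
  intro h
  have h1 : PQ b N = Polynomial.C (-4) := by
    have e : (Polynomial.C (4 : ℚ) : Polynomial ℚ) = 4 := map_ofNat _ 4
    rw [eq_neg_of_add_eq_zero_left h, map_neg, e]
  have := PQ_natDegree b N hN
  rw [h1, Polynomial.natDegree_C] at this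
  omega

theorem DQ_ne (hN : N ≠ 0) : DQ b N ≠ 0 := mul_ne_zero (PQ_ne b N hN) (PQ4_ne b N hN)

/-- the value at a point of the curve -/
theorem point (hN : N ≠ 0) {z r : ℂ} (hP : Polynomial.aeval z (PQ b N) ≠ 0)
    (hr : r ^ 2 = Polynomial.aeval z (DQ b N)) :
    ∃ ψ : CoordRing b N →ₐ[ℚ] ℂ, ψ (cW b N) = r ∧ ∀ f : Polynomial ℚ, ψ (ev b N f) = Polynomial.aeval z f := by
  set P : ℂ := Polynomial.aeval z (PQ b N) with hPdef
  set t : ℂ := (1 + r / P) / 2 with ht
  have hPz : P = (N : ℂ) * ∏ i, (z - (b i : ℂ)) := by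
    rw [hPdef]
    unfold PQ
    rw [map_mul, map_prod, Polynomial.aeval_C, map_intCast]
    congr 1
    refine Finset.prod_congr rfl fun i _ => ?_
    rw [map_sub, Polynomial.aeval_X, Polynomial.aeval_C, map_intCast]
  have hD : Polynomial.aeval z (DQ b N) = P * (P + 4) := by
    unfold DQ
    rw [map_mul, map_add, ← hPdef]
    congr 2
    exact map_ofNat _ 4
  have htt : P * (t * (t - 1)) = 1 := by
    rw [ht]
    rw [hD] at hr
    field_simp
    linear_combination hr
  let f : MvPolynomial (Fin 2) ℚ →ₐ[ℚ] ℂ := MvPolynomial.aeval ![z, t]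
  have hf0 : f (MvPolynomial.X 0) = z := by
    show MvPolynomial.aeval ![z, t] (MvPolynomial.X 0) = z
    rw [MvPolynomial.aeval_X]
    rfl
  have hf1 : f (MvPolynomial.X 1) = t := by
    show MvPolynomial.aeval ![z, t] (MvPolynomial.X 1) = t
    rw [MvPolynomial.aeval_X]
    rfl
  have hfC : ∀ n : ℤ, f (MvPolynomial.C (n : ℚ)) = (n : ℂ) := by
    intro n
    have : (MvPolynomial.C (n : ℚ) : MvPolynomial (Fin 2) ℚ) = (n : MvPolynomial (Fin 2) ℚ) := by
      rw [map_intCast]
    rw [this, map_intCast]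
  have hf : f (eqn b N) = 0 := by
    unfold eqn
    rw [map_sub, map_one, map_mul, map_mul, map_mul, map_prod, hfC, hf1, map_sub, hf1, map_one]
    have h1 : ∏ i, f (MvPolynomial.X 0 - MvPolynomial.C (b i : ℚ)) = ∏ i, (z - (b i : ℂ)) := by
      refine Finset.prod_congr rfl fun i _ => ?_
      rw [map_sub, hf0, hfC]
    rw [h1]
    rw [hPz] at htt
    linear_combination htt
  have hI : ∀ a ∈ Ideal.span {eqn b N}, f a = 0 := by
    intro a ha
    obtain ⟨c, rfl⟩ := Ideal.mem_span_singleton.1 ha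
    rw [map_mul, hf, zero_mul]
  refine ⟨Ideal.Quotient.liftₐ _ f hI, ?_, ?_⟩
  · have hx : Ideal.Quotient.liftₐ _ f hI (cX b N) = z := hf0
    have hT : Ideal.Quotient.liftₐ _ f hI (cT b N) = t := hf1
    have hev : Ideal.Quotient.liftₐ _ f hI (ev b N (PQ b N)) = P := by
      unfold ev
      rw [← Polynomial.aeval_algHom_apply, hx]
    unfold cW
    rw [map_mul, hev, map_sub, map_mul, hT, map_one, map_ofNat, ht]
    field_simp
    ring
  · intro q
    have hx : Ideal.Quotient.liftₐ _ f hI (cX b N) = z := hf0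
    unfold ev
    rw [← Polynomial.aeval_algHom_apply, hx]

theorem aeval_cast (z : ℚ) (f : Polynomial ℚ) : Polynomial.aeval (z : ℂ) f = ((f.eval z : ℚ) : ℂ) := by
  have h := Polynomial.aeval_algebraMap_apply ℂ z f
  rw [Polynomial.coe_aeval_eq_eval] at h
  simpa using h

theorem zero_of {D f : Polynomial ℚ} (hD : D ≠ 0) (h : ∀ z : ℚ, D.eval z ≠ 0 → f.eval z = 0) : f = 0 := by
  have h1 : f * D = 0 := by
    refine Polynomial.funext fun z => ?_
    rw [Polynomial.eval_mul, Polynomial.eval_zero]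
    by_cases hz : D.eval z = 0
    · rw [hz, mul_zero]
    · rw [h z hz, zero_mul]
  exact (mul_eq_zero.1 h1).resolve_right hD

theorem sq_ne (hN : N ≠ 0) {p q : Polynomial ℚ} (h : p ^ 2 - q ^ 2 * DQ b N = 0) : p = 0 ∧ q = 0 := by
  by_cases hq : q = 0
  · rw [hq] at h
    refine ⟨?_, hq⟩
    have h1 : p ^ 2 = 0 := by linear_combination h
    exact pow_eq_zero_iff (two_ne_zero) |>.1 h1
  · exfalso
    have h1 : q ^ 2 ∣ p ^ 2 := ⟨DQ b N, by linear_combination h⟩
    have h2 : q ∣ p := (IsIntegrallyClosed.pow_dvd_pow_iff two_ne_zero).1 h1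
    obtain ⟨s, rfl⟩ := h2
    have h3 : q ^ 2 * (s ^ 2 - DQ b N) = 0 := by linear_combination h
    have h4 : s ^ 2 - DQ b N = 0 := (mul_eq_zero.1 h3).resolve_left (pow_ne_zero 2 hq)
    have h5 : (PQ b N + 2 - s) * (PQ b N + 2 + s) = Polynomial.C 4 := by
      have e : (Polynomial.C 4 : Polynomial ℚ) = 4 := map_ofNat _ 4
      rw [e]
      unfold DQ at h4
      linear_combination -h4
    have h6 : IsUnit ((PQ b N + 2 - s) * (PQ b N + 2 + s)) := by
      rw [h5]
      exact Polynomial.isUnit_C.2 (by norm_num)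
    obtain ⟨h7, h8⟩ := IsUnit.mul_iff.1 h6
    have h9 := Polynomial.eq_C_of_natDegree_eq_zero (Polynomial.natDegree_eq_zero_of_isUnit h7)
    have h10 := Polynomial.eq_C_of_natDegree_eq_zero (Polynomial.natDegree_eq_zero_of_isUnit h8)
    obtain ⟨a, ha⟩ : ∃ a : ℚ, PQ b N + 2 - s = Polynomial.C a := ⟨_, h9⟩
    obtain ⟨c, hc⟩ : ∃ c : ℚ, PQ b N + 2 + s = Polynomial.C c := ⟨_, h10⟩
    have h11 : PQ b N = Polynomial.C ((a + c) / 2 - 2) := by
      have e1 : (Polynomial.C ((a + c) / 2 - 2) : Polynomial ℚ) =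
          Polynomial.C (1 / 2) * (Polynomial.C a + Polynomial.C c) - 2 := by
        have e2 : (Polynomial.C (2 : ℚ) : Polynomial ℚ) = 2 := map_ofNat _ 2
        rw [← e2, ← map_add, ← map_mul, ← map_sub]
        congr 1
        ring
      have e3 : (Polynomial.C (1 / 2 : ℚ) : Polynomial ℚ) * 2 = 1 := by
        have e2 : (Polynomial.C (2 : ℚ) : Polynomial ℚ) = 2 := map_ofNat _ 2
        rw [← e2, ← map_mul]
        norm_num
      rw [e1, ← ha, ← hc]
      linear_combination (-PQ b N - 2) * e3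
    have := PQ_natDegree b N hN
    rw [h11, Polynomial.natDegree_C] at this
    omega

end ReprAux

open ReprAux

theorem cW_sq : cW b N ^ 2 = ev b N (DQ b N) := by
  rw [ev_D]
  unfold cW
  linear_combination (4 * ev b N (PQ b N)) * ev_mul b N

theorem exists_rep (v : CoordRing b N) : ∃ (M : ℕ) (p q : Polynomial ℚ),
    v * ev b N (PQ b N) ^ M = ev b N p + ev b N q * cW b N := by
  obtain ⟨f, rfl⟩ := Ideal.Quotient.mk_surjective v
  induction f using MvPolynomial.induction_on with
  | C a =>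
    refine ⟨0, Polynomial.C a, 0, ?_⟩
    rw [pow_zero, mul_one, map_zero, zero_mul, add_zero]
    unfold ev
    rw [Polynomial.aeval_C]
    rfl
  | add f f' ih ih' =>
    obtain ⟨M, p, q, h⟩ := ih
    obtain ⟨M', p', q', h'⟩ := ih'
    refine ⟨M + M', p * PQ b N ^ M' + p' * PQ b N ^ M, q * PQ b N ^ M' + q' * PQ b N ^ M, ?_⟩
    simp only [map_add, map_mul, map_pow]
    rw [pow_add]
    linear_combination ev b N (PQ b N) ^ M' * h + ev b N (PQ b N) ^ M * h'
  | mul_X f i ih =>
    obtain ⟨M, p, q, h⟩ := ih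
    fin_cases i
    · refine ⟨M, p * Polynomial.X, q * Polynomial.X, ?_⟩
      have hx : ev b N Polynomial.X = cX b N := by
        unfold ev
        rw [Polynomial.aeval_X]
      have hx' : (Ideal.Quotient.mk (Ideal.span {eqn b N})) (MvPolynomial.X 0) = cX b N := rfl
      simp only [map_mul, hx]
      show (Ideal.Quotient.mk _) f * (Ideal.Quotient.mk _) (MvPolynomial.X 0) * _ = _
      rw [hx']
      linear_combination cX b N * h
    · refine ⟨M + 1, Polynomial.C (1 / 2) * (p * PQ b N + q * DQ b N),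
        Polynomial.C (1 / 2) * (p + q * PQ b N), ?_⟩
      have hx' : (Ideal.Quotient.mk (Ideal.span {eqn b N})) (MvPolynomial.X 1) = cT b N := rfl
      have hh : ev b N (Polynomial.C (1 / 2)) * 2 = 1 := by
        have e2 : (Polynomial.C (2 : ℚ) : Polynomial ℚ) = 2 := map_ofNat _ 2
        have e3 : ev b N (Polynomial.C 2) = 2 := by
          rw [e2]
          exact map_ofNat _ 2
        rw [← e3, ← map_mul, ← map_mul]
        norm_num
      have hw := cW_sq b N
      have hw2 : 2 * cT b N * ev b N (PQ b N) = ev b N (PQ b N) + cW b N := by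
        unfold cW
        ring
      rw [map_mul (Ideal.Quotient.mk (Ideal.span {eqn b N}))]
      show (Ideal.Quotient.mk _) f * (Ideal.Quotient.mk _) (MvPolynomial.X 1) * _ = _
      rw [hx']
      simp only [map_add, map_mul]
      rw [pow_succ, ← hw]
      linear_combination cT b N * ev b N (PQ b N) * h -
        (cT b N * ev b N (PQ b N) * (ev b N p + ev b N q * cW b N)) * hh +
        ev b N (Polynomial.C (1 / 2)) * (ev b N p + ev b N q * cW b N) * hw2

theorem indep (hN : N ≠ 0) (p q : Polynomial ℚ) (h : ev b N p + ev b N q * cW b N = 0) :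
    p = 0 ∧ q = 0 := by
  have key : ∀ z : ℚ, (DQ b N).eval z ≠ 0 → p.eval z = 0 ∧ q.eval z = 0 := by
    intro z hz
    obtain ⟨r, hr⟩ := IsAlgClosed.exists_pow_nat_eq (Polynomial.aeval (z : ℂ) (DQ b N)) (n := 2) (by norm_num)
    have hDz : Polynomial.aeval (z : ℂ) (DQ b N) ≠ 0 := by
      rw [aeval_cast]
      exact_mod_cast hz
    have hPz : Polynomial.aeval (z : ℂ) (PQ b N) ≠ 0 := by
      intro h0
      apply hDz
      unfold DQ
      rw [map_mul, h0, zero_mul]
    have hr0 : r ≠ 0 := by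
      intro h0
      rw [h0] at hr
      apply hDz
      rw [← hr]
      norm_num
    obtain ⟨ψ, h1, h2⟩ := point b N hN hPz hr
    obtain ⟨ψ', h1', h2'⟩ := point b N hN (r := -r) hPz (by rw [neg_sq]; exact hr)
    have e1 := congrArg ψ h
    have e2 := congrArg ψ' h
    rw [map_add, map_mul, h1, h2, h2, map_zero, aeval_cast, aeval_cast] at e1
    rw [map_add, map_mul, h1', h2', h2', map_zero, aeval_cast, aeval_cast] at e2
    have e3 : ((p.eval z : ℚ) : ℂ) = 0 := by linear_combination (1 / 2) * e1 + (1 / 2) * e2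
    have e4 : ((q.eval z : ℚ) : ℂ) * r = 0 := by linear_combination (1 / 2) * e1 - (1 / 2) * e2
    have e5 := (mul_eq_zero.1 e4).resolve_right hr0
    exact ⟨by exact_mod_cast e3, by exact_mod_cast e5⟩
  exact ⟨zero_of (DQ_ne b N hN) fun z hz => (key z hz).1, zero_of (DQ_ne b N hN) fun z hz => (key z hz).2⟩

theorem isDomain (hN : N ≠ 0) : IsDomain (CoordRing b N) := by
  have hnt : Nontrivial (CoordRing b N) := by
    refine ⟨⟨0, 1, fun h0 => ?_⟩⟩
    have h1 : ev b N 1 + ev b N 0 * cW b N = 0 := by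
      rw [map_one, map_zero, zero_mul, add_zero]
      exact h0.symm
    exact one_ne_zero (indep b N hN 1 0 h1).1
  have hfin : ∀ (v : CoordRing b N) (M : ℕ) (p q : Polynomial ℚ),
      v * ev b N (PQ b N) ^ M = ev b N p + ev b N q * cW b N → p ^ 2 - q ^ 2 * DQ b N = 0 → v = 0 := by
    intro v M p q h h0
    obtain ⟨hp, hq⟩ := sq_ne b N hN h0
    rw [hp, hq, map_zero, zero_mul, add_zero] at h
    exact (IsUnit.mul_left_eq_zero ((unit_P b N).pow M)).1 h
  have hnz : NoZeroDivisors (CoordRing b N) := by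
    refine ⟨fun {v v'} hv => ?_⟩
    obtain ⟨M, p, q, h⟩ := exists_rep b N v
    obtain ⟨M', p', q', h'⟩ := exists_rep b N v'
    have hw := cW_sq b N
    have h1 : (ev b N p + ev b N q * cW b N) * (ev b N p' + ev b N q' * cW b N) = 0 := by
      rw [← h, ← h']
      linear_combination (ev b N (PQ b N) ^ M * ev b N (PQ b N) ^ M') * hv
    have h2 : ev b N ((p ^ 2 - q ^ 2 * DQ b N) * (p' ^ 2 - q' ^ 2 * DQ b N)) + ev b N 0 * cW b N = 0 := by
      simp only [map_mul, map_sub, map_pow, map_zero, zero_mul, add_zero]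
      rw [← hw]
      linear_combination (ev b N p - ev b N q * cW b N) * (ev b N p' - ev b N q' * cW b N) * h1
    have h3 := (indep b N hN _ _ h2).1
    rcases mul_eq_zero.1 h3 with h4 | h4
    · exact Or.inl (hfin v M p q h h4)
    · exact Or.inr (hfin v' M' p' q' h' h4)
  exact NoZeroDivisors.to_isDomain _

end P4a177u
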