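import Mathlib

/-!
# MODULE P4a177u.ValGen: discrete valuations of function fields

PROOF. `A := Algebra.adjoin ℚ {y}` is a principal ideal domain: it is the image of `ℚ[X]` under `aeval y`.
`F := IntermediateField.adjoin ℚ {y}` is its fraction field, and `K` is a finite separable (characteristic zero)
extension of `F`. So `B := integralClosure A K` is a Dedekind domain with fraction field `K`. `y` is not a unit of `B`
(an integral inverse of `y` over `A` would lie in `A`, as `A` is integrally closed and `y⁻¹ ∈ F`, and `f * X = 1` has no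
solution in `ℚ[X]`), so it lies in a maximal ideal `Q` of `B`. The valuation of the height one prime `Q` does it: for a
rational `c ≠ 0` both `c` and `c⁻¹` are in `B`, so `v c ≤ 1` and `v c⁻¹ ≤ 1`, `v c = 1`.
-/

set_option autoImplicit false

namespace P4a177u

namespace ValGenAux

open IntermediateField.algebraAdjoinAdjoin

theorem pid {K : Type*} [Field K] [CharZero K] (y : K) :
    IsPrincipalIdealRing (Algebra.adjoin ℚ ({y} : Set K)) := by
  rw [Algebra.adjoin_singleton_eq_range_aeval]
  exact IsPrincipalIdealRing.of_surjective (Polynomial.aeval (R := ℚ) y).rangeRestrict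
    (AlgHom.rangeRestrict_surjective _)

theorem inv_notMem {K : Type*} [Field K] [CharZero K] (y : K) (hy : Transcendental ℚ y) :
    y⁻¹ ∉ Algebra.adjoin ℚ ({y} : Set K) := by
  intro h
  have hy0 : y ≠ 0 := by
    rintro rfl
    exact hy isAlgebraic_zero
  rw [Algebra.adjoin_singleton_eq_range_aeval] at h
  obtain ⟨f, hf⟩ := h
  have hf' : Polynomial.aeval y f = y⁻¹ := hf
  have h1 : Polynomial.aeval y (f * Polynomial.X - 1) = 0 := by
    rw [map_sub, map_mul, Polynomial.aeval_X, map_one, hf', inv_mul_cancel₀ hy0, sub_self]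
  have h2 : f * Polynomial.X - 1 = 0 := (transcendental_iff.1 hy) _ h1
  have h3 := congrArg (Polynomial.eval 0) h2
  simp at h3

theorem main {K : Type*} [Field K] [CharZero K] (y : K) (hy : Transcendental ℚ y)
    (hfin : FiniteDimensional (IntermediateField.adjoin ℚ {y}) K) :
    ∃ v : Valuation K (WithZero (Multiplicative ℤ)),
      (∀ c : ℚ, c ≠ 0 → v (c : K) = 1) ∧ v y < 1 := by
  classical
  have hy0 : y ≠ 0 := by
    rintro rfl
    exact hy isAlgebraic_zero
  have : IsPrincipalIdealRing (Algebra.adjoin ℚ ({y} : Set K)) := pid y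
  have : FiniteDimensional (IntermediateField.adjoin ℚ ({y} : Set K)) K := hfin
  have hD : IsDedekindDomain (integralClosure (Algebra.adjoin ℚ ({y} : Set K)) K) :=
    integralClosure.isDedekindDomain (Algebra.adjoin ℚ ({y} : Set K))
      (IntermediateField.adjoin ℚ ({y} : Set K)) K
  have hF : IsFractionRing (integralClosure (Algebra.adjoin ℚ ({y} : Set K)) K) K :=
    integralClosure.isFractionRing_of_finite_extension
      (IntermediateField.adjoin ℚ ({y} : Set K)) K
  set A := Algebra.adjoin ℚ ({y} : Set K) with hA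
  set B := integralClosure A K with hB
  have hyA : y ∈ A := Algebra.self_mem_adjoin_singleton ℚ y
  let yB : B := algebraMap A B ⟨y, hyA⟩
  have hyB : algebraMap B K yB = y := rfl
  have hnu : ¬ IsUnit yB := by
    intro hu
    obtain ⟨u, hu1⟩ := hu
    have h1 : IsIntegral A (y⁻¹ : K) := by
      have h2 : ((u⁻¹ : Bˣ) : B) * yB = 1 := by
        rw [← hu1]
        exact u.inv_mul
      have h3 : algebraMap B K ((u⁻¹ : Bˣ) : B) * y = 1 := by
        have h3' : algebraMap B K (((u⁻¹ : Bˣ) : B) * yB) = 1 := by rw [h2, map_one]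
        rw [map_mul] at h3'
        exact h3'
      have h4 : y⁻¹ = algebraMap B K ((u⁻¹ : Bˣ) : B) := (eq_inv_of_mul_eq_one_left h3).symm
      rw [h4]
      exact ((u⁻¹ : Bˣ) : B).2
    have hyF : y⁻¹ ∈ IntermediateField.adjoin ℚ ({y} : Set K) :=
      inv_mem (IntermediateField.mem_adjoin_simple_self ℚ y)
    have h5 : IsIntegral A (⟨y⁻¹, hyF⟩ : IntermediateField.adjoin ℚ ({y} : Set K)) := by
      refine IsIntegral.tower_bot (B := K) ?_ ?_
      · exact (algebraMap (IntermediateField.adjoin ℚ ({y} : Set K)) K).injective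
      · exact h1
    obtain ⟨z, hz⟩ := IsIntegrallyClosed.isIntegral_iff.1 h5
    have h6 : (z : K) = y⁻¹ := congrArg Subtype.val hz
    exact inv_notMem y hy (h6 ▸ z.2)
  obtain ⟨Q, hQ, hyQ⟩ := exists_max_ideal_of_mem_nonunits hnu
  have hQ0 : Q ≠ ⊥ := by
    rintro rfl
    have : yB = 0 := hyQ
    have h7 : algebraMap B K yB = 0 := by rw [this, map_zero]
    exact hy0 (hyB.symm.trans h7)
  let P : IsDedekindDomain.HeightOneSpectrum B := ⟨Q, hQ.isPrime, hQ0⟩
  refine ⟨P.valuation K, fun c hc => ?_, ?_⟩
  · have hle : ∀ d : ℚ, P.valuation K (d : K) ≤ 1 := by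
      intro d
      have h8 : (d : K) = algebraMap B K (algebraMap A B (algebraMap ℚ A d)) := by
        have h9 : algebraMap B K (algebraMap A B (algebraMap ℚ A d)) = algebraMap ℚ K d := rfl
        rw [h9]
        rfl
      rw [h8]
      exact P.valuation_le_one _
    refine le_antisymm (hle c) ?_
    have h10 := hle c⁻¹
    have h11 : P.valuation K (c : K) * P.valuation K ((c⁻¹ : ℚ) : K) = 1 := by
      rw [← map_mul, ← Rat.cast_mul, mul_inv_cancel₀ hc, Rat.cast_one, map_one]
    by_contra hlt
    rw [not_le] at hlt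
    have h12 : P.valuation K (c : K) * P.valuation K ((c⁻¹ : ℚ) : K) < 1 :=
      mul_lt_one_of_lt_of_le hlt h10
    exact absurd h11 h12.ne
  · have h13 := (P.valuation_lt_one_iff_mem (K := K) yB).2 hyQ
    exact h13

end ValGenAux

theorem exists_val {K : Type*} [Field K] [CharZero K] (y : K) (hy : Transcendental ℚ y)
    (hfin : FiniteDimensional (IntermediateField.adjoin ℚ {y}) K) :
    ∃ v : Valuation K (WithZero (Multiplicative ℤ)),
      (∀ c : ℚ, c ≠ 0 → v (c : K) = 1) ∧ v y < 1 :=
  ValGenAux.main y hy hfin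

end P4a177u
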