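import Pool.Agent.Lib.P4a177u.FinD
import Pool.Agent.Lib.P4a177u.ValGen

/-!
# MODULE P4a177u.ValC: the valuations of the function field at the cusps

`val_zero`: a valuation with `v (x - b_i) < 1`; then `1 < v t` and `v (t - 1) = v t`.
`val_inf`: a valuation with `1 < v x`; then `v (t (t - 1)) < 1`, so `v t ≠ v (t - 1)`.
-/

set_option autoImplicit false

namespace P4a177u

open P4a177h P4a177d

variable {g : ℕ} (b : Fin (g + 1) → ℤ) (N : ℤ) (K : Type) [Field K] [Algebra (CoordRing b N) K]
  [IsFractionRing (CoordRing b N) K]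

namespace ValCAux

omit [IsFractionRing (CoordRing b N) K] in
theorem map_cst (c : ℚˣ) :
    algebraMap (CoordRing b N) K (cst b N c) = ((c : ℚ) : K) := by
  have h : ((cst b N c : (CoordRing b N)ˣ) : CoordRing b N) = algebraMap ℚ (CoordRing b N) c := rfl
  rw [h]
  exact eq_ratCast ((algebraMap (CoordRing b N) K).comp (algebraMap ℚ (CoordRing b N))) (c : ℚ)

omit [IsFractionRing (CoordRing b N) K] in
theorem map_uF : algebraMap (CoordRing b N) K (uF b N) *
      algebraMap (CoordRing b N) K (cT b N) = algebraMap (CoordRing b N) K (cT b N) - 1 := by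
  have h1 : uF b N * uT b N = uT1 b N := by
    unfold uF
    exact div_mul_cancel _ _
  have h2 := congrArg (fun u : (CoordRing b N)ˣ => algebraMap (CoordRing b N) K u) h1
  simp only [Units.val_mul, map_mul, uT_val, uT1_val, map_sub, map_one] at h2
  exact h2

omit [IsFractionRing (CoordRing b N) K] in
theorem map_uL (j : Fin (g + 1)) : algebraMap (CoordRing b N) K (uL b N j) =
      algebraMap (CoordRing b N) K (cX b N) - (b j : K) := by
  rw [uL_val, map_sub, map_intCast]

omit [IsFractionRing (CoordRing b N) K] in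
theorem map_eqn : (N : K) * (algebraMap (CoordRing b N) K (cT b N) *
      (algebraMap (CoordRing b N) K (cT b N) - 1)) *
      ∏ j, (algebraMap (CoordRing b N) K (cX b N) - (b j : K)) = 1 := by
  have h := congrArg (algebraMap (CoordRing b N) K) (eqn_cX b N)
  simp only [map_mul, map_sub, map_one, map_intCast, map_prod] at h
  exact h

variable {K}

/-- nonzero integers have value `1` -/
theorem val_int [CharZero K] {v : Valuation K (WithZero (Multiplicative ℤ))}
    (hv : ∀ c : ℚ, c ≠ 0 → v (c : K) = 1) {n : ℤ} (hn : n ≠ 0) : v (n : K) = 1 := by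
  have := hv (n : ℚ) (by exact_mod_cast hn)
  rwa [Rat.cast_intCast] at this

end ValCAux

open ValCAux

theorem val_zero (hb : Function.Injective b) (hN : N ≠ 0) (i : Fin (g + 1)) :
    ∃ v : Valuation K (WithZero (Multiplicative ℤ)),
      (∀ c : ℚˣ, v (algebraMap (CoordRing b N) K (cst b N c)) = 1) ∧
      v (algebraMap (CoordRing b N) K (uF b N)) = 1 ∧
      v (algebraMap (CoordRing b N) K (uL b N i)) ≠ 1 ∧
      ∀ j, j ≠ i → v (algebraMap (CoordRing b N) K (uL b N j)) = 1 := by
  have := charZero b N K
  have hE := map_eqn b N K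
  have hF := map_uF b N K
  have htr := transc b N K hN
  simp only [map_uL, map_cst]
  have hfd := finDim b N K hN
  set x := algebraMap (CoordRing b N) K (cX b N) with hx
  set t := algebraMap (CoordRing b N) K (cT b N) with ht
  set f := algebraMap (CoordRing b N) K (uF b N) with hf
  obtain ⟨y, hy⟩ : ∃ y : K, y = x - (b i : K) := ⟨_, rfl⟩
  have hxy : x = y + (b i : K) := by
    rw [hy]
    ring
  have hty : Transcendental ℚ y := by
    intro h
    apply htr
    rw [hxy]
    refine h.add ?_
    have := isAlgebraic_algebraMap (R := ℚ) (A := K) (b i : ℚ)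
    rwa [map_intCast] at this
  have hmem : x ∈ IntermediateField.adjoin ℚ {y} := by
    rw [hxy]
    exact add_mem (IntermediateField.mem_adjoin_simple_self ℚ y) (intCast_mem _ (b i))
  obtain ⟨v, hv, hvy⟩ := exists_val y hty (hfd y hmem)
  have hj : ∀ j, j ≠ i → v (x - (b j : K)) = 1 := by
    intro j hji
    have e : x - (b j : K) = y + ((b i - b j : ℤ) : K) := by
      rw [hy]
      push_cast
      ring
    have h1 : v ((b i - b j : ℤ) : K) = 1 := by
      refine val_int hv (sub_ne_zero.2 ?_)
      intro h
      exact hji (hb h.symm)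
    rw [e, Valuation.map_add_eq_of_lt_right (v := v) (by rw [h1]; exact hvy), h1]
  have hprod : v (∏ j, (x - (b j : K))) = v y := by
    rw [map_prod, ← Finset.mul_prod_erase _ _ (Finset.mem_univ i), ← hy,
      Finset.prod_eq_one (fun j hj' => hj j (Finset.ne_of_mem_erase hj')), mul_one]
  have hval : v t * v (t - 1) * v y = 1 := by
    have h1 := congrArg v hE
    rw [map_mul, map_mul, map_mul, map_one, hprod, val_int hv hN, one_mul] at h1
    exact h1
  have ht1 : 1 < v t := by
    by_contra hcon
    have h1 : v t ≤ 1 := not_lt.1 hcon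
    have h2 : v (t - 1) ≤ 1 := by
      refine (Valuation.map_sub v t 1).trans (max_le h1 ?_)
      rw [map_one]
    have h3 : v t * v (t - 1) ≤ 1 := mul_le_one' h1 h2
    have h4 : v t * v (t - 1) * v y ≤ v y := mul_le_of_le_one_left' h3
    rw [hval] at h4
    exact absurd hvy (not_lt.2 h4)
  have ht2 : v (t - 1) = v t := by
    refine Valuation.map_sub_eq_of_lt_left v ?_
    rw [map_one]
    exact ht1
  refine ⟨v, fun c => hv c c.ne_zero, ?_, ?_, hj⟩
  · have h1 := congrArg v hF
    rw [map_mul, ht2] at h1
    have h2 : v t ≠ 0 := fun h0 => by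
      rw [h0] at ht1
      exact absurd ht1 (not_lt.2 zero_le)
    exact (mul_eq_right₀ h2).1 h1
  · rw [← hy]
    exact hvy.ne

theorem val_inf (hN : N ≠ 0) :
    ∃ v : Valuation K (WithZero (Multiplicative ℤ)),
      (∀ c : ℚˣ, v (algebraMap (CoordRing b N) K (cst b N c)) = 1) ∧
      v (algebraMap (CoordRing b N) K (uF b N)) ≠ 1 := by
  have := charZero b N K
  have hE := map_eqn b N K
  have hF := map_uF b N K
  have htr := transc b N K hN
  simp only [map_cst]
  have hfd := finDim b N K hN
  set x := algebraMap (CoordRing b N) K (cX b N) with hx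
  set t := algebraMap (CoordRing b N) K (cT b N) with ht
  set f := algebraMap (CoordRing b N) K (uF b N) with hf
  have hty : Transcendental ℚ x⁻¹ := by
    intro h
    apply htr
    have := h.inv
    rwa [inv_inv] at this
  have hmem : x ∈ IntermediateField.adjoin ℚ {x⁻¹} := by
    have := inv_mem (IntermediateField.mem_adjoin_simple_self ℚ x⁻¹)
    rwa [inv_inv] at this
  obtain ⟨v, hv, hvy⟩ := exists_val x⁻¹ hty (hfd x⁻¹ hmem)
  have hx0 : x ≠ 0 := by
    intro h0
    apply htr
    rw [h0]
    exact isAlgebraic_zero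
  have hvx0 : v x ≠ 0 := (Valuation.ne_zero_iff v).2 hx0
  have hx1 : 1 < v x := by
    rw [map_inv₀] at hvy
    exact (inv_lt_one₀ (zero_lt_iff.2 hvx0)).1 hvy
  have hj : ∀ j, 1 < v (x - (b j : K)) := by
    intro j
    have h1 : v (b j : K) ≤ 1 := by
      rcases eq_or_ne (b j) 0 with h0 | h0
      · rw [h0, Int.cast_zero, map_zero]
        exact zero_le
      · exact (val_int hv h0).le
    rw [Valuation.map_sub_eq_of_lt_left v (lt_of_le_of_lt h1 hx1)]
    exact hx1
  have hprod : 1 < v (∏ j, (x - (b j : K))) := by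
    rw [map_prod, Fin.prod_univ_succ]
    exact one_lt_mul_of_lt_of_le' (hj 0) (Finset.one_le_prod' fun j _ => (hj j.succ).le)
  have hval : v t * v (t - 1) * v (∏ j, (x - (b j : K))) = 1 := by
    have h1 := congrArg v hE
    rw [map_mul, map_mul, map_mul, map_one, val_int hv hN, one_mul] at h1
    exact h1
  refine ⟨v, fun c => hv c c.ne_zero, fun hcon => ?_⟩
  have h1 := congrArg v hF
  rw [map_mul, hcon, one_mul] at h1
  -- `v t = v (t - 1)`
  have h2 : v t < 1 := by
    by_contra h3
    have h4 : 1 ≤ v t := not_lt.1 h3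
    rw [← h1] at hval
    have h5 : 1 ≤ v t * v t := one_le_mul h4 h4
    have h6 : 1 < v t * v t * v (∏ j, (x - (b j : K))) := one_lt_mul_of_le_of_lt h5 hprod
    rw [hval] at h6
    exact lt_irrefl _ h6
  have h3 : v (1 : K) < 1 := by
    have e : (1 : K) = t - (t - 1) := by ring
    rw [e]
    refine lt_of_le_of_lt (Valuation.map_sub v t (t - 1)) (max_lt h2 ?_)
    rw [← h1]
    exact h2
  rw [map_one] at h3
  exact lt_irrefl _ h3

end P4a177u
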